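import Pool.Agent.K3h23.BI.CountM
import Pool.Agent.K3h23.BI.EmbM
import Pool.Agent.K3h23.GF.Dens

/-!
# Birational sections of 100% of all superelliptic curves and norm hypersurfaces

Let `k` be any field finitely generated over `ℚ`, the fraction field of a domain `R` which is finitely
generated as a ring (for instance a number field, `R` its ring of integers).  Fix degrees
`d_1, …, d_r ≥ 3` and consider all `a ∈ R` and all polynomials `f_1, …, f_r` over `R` of these degrees; the
vectors of the `1 + ∑ (d_i + 1)` coefficients outside a set of density zero have the following property.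
All `f_i` are irreducible over `k`, and for all finite extensions `L` of `k`, all `n ≥ 1` and all
exponents `e_1, …, e_r` at once: if `M` divides `n` and all `d_i` and does not divide `[L : k]`, then the
curve

`a yⁿ = f_1(x)^(e_1) ⋯ f_r(x)^(e_r)`

has no birational sections over `L`: there is no section of `Gal(Ω/F) → G_L`, `F` the function field of
the curve over `L` and `Ω` an algebraic closure of `F`.  The same is true for all fields `F` over `L` which
contain a point of one of the hypersurfaces

`a yⁿ = ∏_i c_i^(j_i) ∏_θ h_i(θ)`, `y ≠ 0`,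

where `θ` runs through the roots of `f_i`, `c_i` is the leading coefficient of `f_i`, and the
polynomials `h_i` over `F` and the `j_i ≥ 0` are arbitrary (if the degree of `h_i` is at most `j_i`, the
factor is the resultant of `f_i` and `h_i`, a form of degree `d_i` in the coefficients of `h_i`), for
instance for the function fields of all varieties over `L` with a rational map to such a
hypersurface.  Already `Gal(N/F) → G_L` has no section, where `N` is generated over `F` by the algebraic
closure of `k` and the roots of order `M` of the `h_i(θ)` (of the `x - θ` for the curves); this extension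
is abelian of exponent `M` over `F k̄`.

So for 100% of these curves (with `M = gcd(n, d_1, …, d_r) > 1`) the birational section conjecture is
true over `k`, and over all finite extensions of `k` of a degree not divisible by `M`: there are no
sections and no points.  If `r = 1`, `e_1 = 1` and `d ∣ n` or `n ∣ d`, this is best possible: the curve has
points over extensions of degree `M`.

The landed result `MP_c1dca2_ag.SuperellipticIndex` is about the fundamental groups of the curves
`a yⁿ = f(x)` with one irreducible `f`, and there is a loss at the prime 2 (only `M / 2` divides `[L : k]` if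
`4 ∣ M` and `d / M` is odd).  Here several polynomials with arbitrary exponents are allowed, as well
as varieties of higher dimension, and nothing is lost at 2.

Proof.  By the sieve of `MP_c1dca2_ag.SuperellipticIndex`, with the count of the vectors modulo the
square of a prime ideal `v` of a number field such that `a` has valuation one and all `f_i` are
irreducible modulo `v`, for 100% of the vectors there is a discrete valuation ring `A` of `k` with
`v(a) = ±1` such that the `f_i` have unit leading coefficients and irreducible reductions.  Then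
`MP_8312c9_nt.BirationalIndex` applies: `M` divides `v(a) [L : k]` if there is a section over `L`.
-/

open Polynomial

namespace Pool.Agent.Results.MP_8312c9_nt.AlmostAllNormHypersurfaces

universe v w y

section definitions

/-- Let `L ⊆ F ⊆ N ⊆ Ω` be fields, `L̄` the algebraic closure of `L` in `Ω`.  A section of
`Gal(N/F) → Gal(L̄/L)`: a continuous homomorphism `s` from `Gal(L̄/L)` to `Gal(N/F)` such that `s(σ)`
acts as `σ` on the elements of `L̄` in `N`. -/
structure GaloisSection (L : Type y) (F : Type v) (Ω : Type w) [Field L] [Field F] [Field Ω]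
    [Algebra L F] [Algebra F Ω] [Algebra L Ω] (N : IntermediateField F Ω) where
  /-- the homomorphism `Gal(L̄/L) → Gal(N/F)` -/
  toHom : (algebraicClosure L Ω ≃ₐ[L] algebraicClosure L Ω) →* (N ≃ₐ[F] N)
  cont : Continuous toHom
  compat : ∀ (σ : algebraicClosure L Ω ≃ₐ[L] algebraicClosure L Ω) (c : algebraicClosure L Ω)
    (z : N), (z : Ω) = c → (toHom σ z : Ω) = σ c

/-- The product of the values `h(θ)` over the roots `θ` in `Ω` of the polynomial `f`, counted with
multiplicities. -/
noncomputable def rootProduct {L : Type y} {F : Type v} (Ω : Type w) [Field L] [Field F] [Field Ω]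
    [Algebra F Ω] [Algebra L Ω] (f : L[X]) (h : F[X]) : Ω :=
  ((f.aroots Ω).map fun θ => aeval θ h).prod

/-- No field `F` over `L` which contains a point `(y, h)`, `y ≠ 0`, of the hypersurface
`a yⁿ = ∏_i c_i^(j_i) ∏ h_i(θ)` (`c_i` the leading coefficient of `f_i`, inner products over the roots
`θ` of `f_i`) has a section of `Gal(N/F) → G_L`, where `Ω` is an algebraic closure of `F` and `N ⊆ Ω`
contains the algebraic closure of `L` and the roots of order `d` of the `h_i(θ)`.  For `N = Ω` these
are the sections of the absolute Galois group of `F`. -/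
def NoSections {L : Type y} [Field L] {I : Type} [Fintype I] (d n : ℕ) (a : L) (f : I → L[X])
    (j : I → ℕ) : Prop :=
  ∀ (F : Type v) (Ω : Type w) [Field F] [Field Ω] [Algebra L F] [Algebra F Ω] [Algebra L Ω]
    [IsScalarTower L F Ω] [IsAlgClosure F Ω] (y : F) (h : I → F[X]) (N : IntermediateField F Ω),
    y ≠ 0 → algebraMap L Ω a * algebraMap F Ω y ^ n =
      ∏ i, (algebraMap L Ω (f i).leadingCoeff ^ j i * rootProduct Ω (f i) (h i)) →
    (∀ c : algebraicClosure L Ω, (c : Ω) ∈ N) →
    (∀ i, ∀ θ : Ω, aeval θ (f i) = 0 → ∃ z ∈ N, z ^ d = aeval θ (h i)) →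
    IsEmpty (GaloisSection L F Ω N)

/-- No field `F` over `L` which contains a point `(x, y)`, `y ≠ 0`, of the curve
`a yⁿ = ∏ f_i(x)^(e_i)` has a section of `Gal(N/F) → G_L`, where `Ω` is an algebraic closure of `F` and
`N ⊆ Ω` contains the algebraic closure of `L` and the roots of order `d` of the functions `x - θ`, `θ` a
root of one of the `f_i`. -/
def NoSuperellipticSections {L : Type y} [Field L] {I : Type} [Fintype I] (d n : ℕ) (a : L)
    (f : I → L[X]) (e : I → ℕ) : Prop :=
  ∀ (F : Type v) (Ω : Type w) [Field F] [Field Ω] [Algebra L F] [Algebra F Ω] [Algebra L Ω]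
    [IsScalarTower L F Ω] [IsAlgClosure F Ω] (x y : F) (N : IntermediateField F Ω),
    y ≠ 0 → algebraMap L F a * y ^ n = ∏ i, aeval x (f i) ^ e i →
    (∀ c : algebraicClosure L Ω, (c : Ω) ∈ N) →
    (∀ i, ∀ θ : Ω, aeval θ (f i) = 0 → ∃ z ∈ N, z ^ d = algebraMap F Ω x - θ) →
    IsEmpty (GaloisSection L F Ω N)

/-- The indices of the vectors `(a; f_1, …, f_r)`: `none` for `a`, and `(i, j)` for the coefficient of
`x^j` in `f_i`, `0 ≤ j ≤ d_i`. -/
abbrev Index {I : Type} (d : I → ℕ) : Type := Option (Σ i : I, Fin (d i + 1))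

/-- The polynomial `f_i` over `L` given by a vector of elements of `R`. -/
noncomputable def poly {R : Type} [CommRing R] (L : Type y) [Field L] [Algebra R L] {I : Type}
    {d : I → ℕ} (c : Index d → R) (i : I) : L[X] :=
  ∑ j : Fin (d i + 1), C (algebraMap R L (c (some ⟨i, j⟩))) * X ^ (j : ℕ)

/-- The vectors `(a; f_1, …, f_r)` that do not have the following property: `a ≠ 0`, the `f_i` are
irreducible of degree `d_i` over `k`, and for all finite extensions `L` of `k`, all `M ≥ 1` which divide
all `d_i` and do not divide `[L : k]`, all `n` divisible by `M` and all exponents there are no sections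
over `L` for the hypersurfaces `a yⁿ = ∏_i c_i^(j_i) ∏ h_i(θ)` and the curves `a yⁿ = ∏ f_i(x)^(e_i)`. -/
def Exceptional (R : Type) [CommRing R] (k : Type) [Field k] [Algebra R k] {I : Type} [Fintype I]
    (d : I → ℕ) : Set (Index d → R) :=
  {c | ¬ (algebraMap R k (c none) ≠ 0 ∧
    (∀ i, (poly k c i).natDegree = d i ∧ Irreducible (poly k c i)) ∧
    ∀ (L : Type y) [Field L] [Algebra k L] [Algebra R L] [IsScalarTower R k L]
      [FiniteDimensional k L] (M : ℕ), 0 < M → (∀ i, M ∣ d i) → ¬ M ∣ Module.finrank k L →
      ∀ n : ℕ, M ∣ n →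
      (∀ j : I → ℕ, NoSections.{v, w} M n (algebraMap R L (c none)) (fun i => poly L c i) j) ∧
      ∀ e : I → ℕ, NoSuperellipticSections.{v, w} M n (algebraMap R L (c none))
        (fun i => poly L c i) e)}

/-- Density zero: for every `ε > 0` there is an ideal `I` of `R` of finite index such that `E` lies
in at most `ε` times the number of all residue classes modulo `I`. -/
def DensityZero {R : Type} [CommRing R] {ι : Type} [Fintype ι] (E : Set (ι → R)) : Prop :=
  ∀ ε : ℝ, 0 < ε → ∃ I : Ideal R, Finite (R ⧸ I) ∧
    (Set.ncard ((fun (t : ι → R) i => Ideal.Quotient.mk I (t i)) '' E) : ℝ) ≤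
      ε * (Nat.card (R ⧸ I) : ℝ) ^ Fintype.card ι

end definitions

section proof

open Pool.Agent.K3h23.BI Pool.Agent.TH377.Sup

/-- the property of the vectors -/
def GoodC (R : Type) [CommRing R] (k : Type) [Field k] [Algebra R k] {I : Type}
    (d : I → ℕ) (c : Index d → R) : Prop :=
  algebraMap R k (c none) ≠ 0 ∧ (∀ i, algebraMap R k (c (some ⟨i, Fin.last (d i)⟩)) ≠ 0) ∧
    DataM k (algebraMap R k (c none)) (fun i => poly k c i)

lemma irr_of_reduction {A k : Type*} [CommRing A] [IsDomain A] [IsDiscreteValuationRing A]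
    [Field k] [Algebra A k] [IsFractionRing A k] (f : A[X]) (hlc : IsUnit f.leadingCoeff)
    (hirr : Irreducible (f.map (IsLocalRing.residue A))) : Irreducible (f.map (algebraMap A k)) := by
  obtain ⟨u, hu⟩ := hlc
  have hmon : (C ((u⁻¹ : Aˣ) : A) * f).Monic := by
    rw [Monic, leadingCoeff_mul, leadingCoeff_C, ← hu, Units.inv_mul]
  have h4 : Irreducible (C ((u⁻¹ : Aˣ) : A) * f) := by
    refine hmon.irreducible_of_irreducible_map (IsLocalRing.residue A) _ ?_
    rw [Polynomial.map_mul, map_C]
    exact (irreducible_isUnit_mul (isUnit_C.2 ((u⁻¹).isUnit.map _))).2 hirr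
  have h5 := (hmon.irreducible_iff_irreducible_map_fraction_map (K := k)).1 h4
  rw [Polynomial.map_mul, map_C] at h5
  exact (irreducible_isUnit_mul (isUnit_C.2 ((u⁻¹).isUnit.map _))).1 h5

/-- superelliptic curves -/
theorem superelliptic {L : Type y} [Field L] {I : Type} [Fintype I] (d n : ℕ) (a : L)
    (f : I → L[X]) (e : I → ℕ) (h : NoSections.{v, w} d n a f e) :
    NoSuperellipticSections.{v, w} d n a f e := by
  intro F Ω _ _ _ _ _ _ _ x y N hy hxy hN1 hN2
  have hcl : IsAlgClosed Ω := IsAlgClosure.isAlgClosed F
  refine h F Ω y (fun i => (C x - X) ^ e i) N hy ?_ hN1 ?_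
  · have h1 : ∀ i, algebraMap F Ω (aeval x (f i)) =
        algebraMap L Ω (f i).leadingCoeff *
          (((f i).aroots Ω).map (fun θ => algebraMap F Ω x - θ)).prod := by
      intro i
      have h2 : ((f i).map (algebraMap L Ω)).Splits := IsAlgClosed.splits _
      have h3 := h2.eval_eq_prod_roots (algebraMap F Ω x)
      rw [leadingCoeff_map, eval_map_algebraMap, aeval_algebraMap_apply] at h3
      exact h3
    have h2 : ∀ i, rootProduct Ω (f i) ((C x - X) ^ e i) =
        (((f i).aroots Ω).map (fun θ => algebraMap F Ω x - θ)).prod ^ e i := by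
      intro i
      unfold rootProduct
      rw [← Multiset.prod_map_pow]
      congr 1
      refine Multiset.map_congr rfl fun θ _ => ?_
      rw [map_pow, map_sub, aeval_C, aeval_X]
    have h3 := congrArg (algebraMap F Ω) hxy
    rw [map_mul, map_pow, map_prod, ← IsScalarTower.algebraMap_apply L F Ω] at h3
    rw [h3]
    refine Finset.prod_congr rfl fun i _ => ?_
    rw [map_pow, h1, mul_pow, h2]
  · intro i θ hθ
    obtain ⟨z, hz, hzd⟩ := hN2 i θ hθ
    refine ⟨z ^ e i, pow_mem hz _, ?_⟩
    rw [← pow_mul, mul_comm, pow_mul, hzd, map_pow, map_sub, aeval_C, aeval_X]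

/-- the local theorem -/
theorem no_sections {k : Type} [Field k] [CharZero k] {L : Type y} [Field L] [Algebra k L]
    [FiniteDimensional k L] {I : Type} [Fintype I] (a : k) (g : I → k[X]) (hdata : DataM k a g)
    (M : ℕ) (hM0 : 0 < M) (hM : ∀ i, M ∣ (g i).natDegree) (hL : ¬ M ∣ Module.finrank k L)
    (n : ℕ) (hn : M ∣ n) (j : I → ℕ) :
    NoSections.{v, w} M n (algebraMap k L a) (fun i => (g i).map (algebraMap k L)) j := by
  intro F Ω _ _ _ _ _ _ _ y h N hy heq hN1 hN2
  have hcl : IsAlgClosed Ω := IsAlgClosure.isAlgClosed F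
  have halg : Algebra.IsAlgebraic F Ω := IsAlgClosure.isAlgebraic
  obtain ⟨A, hA, f, hf, hlc, hirr, ϖ, t, m, hϖ, ht, hm, ha⟩ := hdata
  have hinj : Function.Injective (algebraMap A k) := IsFractionRing.injective A k
  have hgf : g = fun i => (f i).map (algebraMap A k) := funext fun i => (hf i).symm
  subst hgf
  have hlck : ∀ i, ((f i).map (algebraMap A k)).leadingCoeff = (((f i).leadingCoeff : A) : k) := by
    intro i
    rw [leadingCoeff_map_of_injective hinj]
    rfl
  have hdeg : ∀ i, ((f i).map (IsLocalRing.residue A)).natDegree =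
      ((f i).map (algebraMap A k)).natDegree := by
    intro i
    rw [natDegree_map_of_leadingCoeff_ne_zero _ ((hlc i).map _).ne_zero,
      natDegree_map_eq_of_injective hinj]
  -- the unit
  have hu : IsUnit (∏ i, (f i).leadingCoeff ^ j i : A) := by
    rw [IsUnit.prod_univ_iff]
    exact fun i => (hlc i).pow _
  obtain ⟨u, hu⟩ := hu
  have h2 : ((u : A) : k) * (((u⁻¹ : Aˣ) : A) : k) = 1 := by
    have h3 := congrArg (fun z : A => (z : k)) u.mul_inv
    exact h3
  have h3 : ((u : A) : k) ≠ 0 := left_ne_zero_of_mul_eq_one h2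
  have hprod : ((u : A) : k) = ∏ i, (((f i).leadingCoeff : A) : k) ^ j i := by
    rw [hu]
    push_cast
    rfl
  obtain ⟨q, rfl⟩ := hn
  have hne : algebraMap L Ω (algebraMap k L ((u : A) : k)) ≠ 0 :=
    (_root_.map_ne_zero _).2 ((_root_.map_ne_zero _).2 h3)
  refine ⟨fun S => ?_⟩
  have key := section_dvd A (IsLocalRing.residue A) IsLocalRing.residue_surjective N
    (fun x hx => hN1 ⟨x, hx⟩) hM0 f hlc (by
      intro i p hp hpf
      have h4 := Pool.Agent.K3h23.GF.factorDiv_of_irr _ (hirr i) p hp hpf
      rw [hdeg] at h4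
      exact (hM i).trans h4) ϖ (t * ((u⁻¹ : Aˣ) : A)) hϖ (ht.mul (Units.isUnit _)) m
    (a / ((u : A) : k)) (by
      rw [ha, div_eq_iff h3]
      push_cast
      linear_combination (-(t : k) * (ϖ : k) ^ m) * h2) h (y ^ q) (pow_ne_zero _ hy) (by
      rw [map_div₀, map_div₀, map_pow, ← pow_mul, mul_comm q M, div_mul_eq_mul_div, heq,
        Finset.prod_mul_distrib, hprod, map_prod, map_prod]
      have h5 : ∏ i, algebraMap L Ω (((f i).map (algebraMap A k)).map
          (algebraMap k L)).leadingCoeff ^ j i =
          ∏ x, algebraMap L Ω (algebraMap k L ((((f x).leadingCoeff : A) : k) ^ j x)) := by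
        refine Finset.prod_congr rfl fun i _ => ?_
        rw [leadingCoeff_map, hlck, map_pow, map_pow]
      rw [h5, mul_div_assoc, mul_comm, div_mul_cancel₀]
      · rfl
      · rw [hprod, map_prod, map_prod] at hne
        exact hne) (fun i ρ hρ => hN2 i ρ (by
        rw [mem_aroots] at hρ
        exact hρ.2)) ⟨S.toHom, S.cont, S.compat⟩
  apply hL
  have h6 : (M : ℤ) ∣ (Module.finrank k L : ℤ) := by
    rcases hm with rfl | rfl
    · rwa [one_mul] at key
    · rwa [neg_one_mul, dvd_neg] at key
  exact_mod_cast h6

lemma of_good {R : Type} [CommRing R] {k : Type} [Field k] [CharZero k] [Algebra R k] {I : Type}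
    [Fintype I] (d : I → ℕ) (c : Index d → R) (hc : GoodC R k d c) (L : Type y) [Field L]
    [Algebra k L] [Algebra R L] [IsScalarTower R k L] [FiniteDimensional k L] (M : ℕ) (hM0 : 0 < M)
    (hM : ∀ i, M ∣ d i) (hL : ¬ M ∣ Module.finrank k L) (n : ℕ) (hn : M ∣ n) (j : I → ℕ) :
    NoSections.{v, w} M n (algebraMap R L (c none)) (fun i => poly L c i) j := by
  obtain ⟨h0, h1, hd⟩ := hc
  have hR : ∀ r : R, algebraMap R L r = algebraMap k L (algebraMap R k r) := fun r =>
    IsScalarTower.algebraMap_apply R k L r
  have e1 : ∀ i, (poly k c i).natDegree = d i := fun i =>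
    pol_natDegree (fun j => algebraMap R k (c (some ⟨i, j⟩))) (h1 i)
  have e2 : (fun i => poly L c i) = fun i => (poly k c i).map (algebraMap k L) := by
    funext i
    unfold poly
    rw [Polynomial.map_sum]
    refine Finset.sum_congr rfl fun j _ => ?_
    rw [Polynomial.map_mul, Polynomial.map_pow, map_C, map_X, hR]
  rw [e2, hR]
  exact no_sections _ _ hd M hM0 (fun i => by rw [e1]; exact hM i) hL n hn j

lemma reindex {R : Type} [CommRing R] {ι : Type} {N : ℕ} (e : ι ≃ Fin N) (E : Set (ι → R))
    (I : Ideal R) : Set.ncard ((fun (t : ι → R) i => Ideal.Quotient.mk I (t i)) '' E) =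
      Set.ncard ((fun (t : Fin N → R) i => Ideal.Quotient.mk I (t i)) ''
        {t | (fun i => t (e i)) ∈ E}) := by
  have hinj : Function.Injective (fun (x : Fin N → R ⧸ I) (i : ι) => x (e i)) := by
    intro x x' h
    funext n
    have := congrFun h (e.symm n)
    simpa using this
  rw [← Set.ncard_image_of_injective _ hinj, Set.image_image]
  congr 1
  ext x
  constructor
  · rintro ⟨t, ht, rfl⟩
    refine ⟨fun n => t (e.symm n), ?_, ?_⟩
    · change (fun i => t (e.symm (e i))) ∈ E
      simpa using ht
    · funext i
      simp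
  · rintro ⟨t, ht, rfl⟩
    exact ⟨fun i => t (e i), ht, rfl⟩

end proof

/-- Let `R` be a domain of characteristic zero that is finitely generated as a ring, with fraction
field `k`; so `k` is any field finitely generated over `ℚ`.  Let `d_i ≥ 3` for `i` in a finite set `I`.
For all vectors `(a; f_i)` of an element `a` of `R` and polynomials `f_i` over `R` of degree `d_i` outside
a set of density zero: the `f_i` are irreducible over `k`, and for all finite extensions `L` of `k`, all
`M` dividing all `d_i` and not dividing `[L : k]`, all `n` divisible by `M` and all `e_i, j_i ≥ 0`, the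
curve `a yⁿ = ∏ f_i(x)^(e_i)` and the hypersurfaces `a yⁿ = ∏_i c_i^(j_i) ∏ h_i(θ)` (inner products over
the roots `θ` of `f_i`, `c_i` the leading coefficient of `f_i`) have no birational sections over `L`, also
none over the extensions generated by the algebraic closure of `k` and the roots of order `M` of the
`x - θ` or `h_i(θ)`. -/
theorem result (R : Type) [CommRing R] [IsDomain R] [CharZero R] [Algebra.FiniteType ℤ R]
    (k : Type) [Field k] [Algebra R k] [IsFractionRing R k] (I : Type) [Fintype I] (d : I → ℕ)
    (hd : ∀ i, 3 ≤ d i) : DensityZero (Exceptional.{v, w, y} R k d) := by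
  classical
  have hcz : CharZero k := charZero_of_injective_algebraMap (IsFractionRing.injective R k)
  have hδ0 : (0 : ℝ) < ∏ i, (1 / (4 * (d i : ℝ))) := by
    refine Finset.prod_pos fun i _ => ?_
    have h1 : (3 : ℝ) ≤ d i := by exact_mod_cast hd i
    positivity
  have hδ1 : ∏ i, (1 / (4 * (d i : ℝ))) ≤ 1 := by
    refine Finset.prod_le_one (fun i _ => by positivity) fun i _ => ?_
    have h1 : (3 : ℝ) ≤ d i := by exact_mod_cast hd i
    rw [div_le_one (by positivity)]
    linarith
  intro ε hε
  let e : Index d ≃ Fin (Fintype.card (Index d)) := Fintype.equivFin _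
  obtain ⟨J, hJ, hle⟩ := Pool.Agent.K3h23.GF.density_all (R := R) (k := k)
    (Fintype.card (Index d))
    (fun {L} _ _ v => Pool.Agent.K3h23.BI.GoodM v d e)
    (fun {L} _ _ v => True) (∏ i, (1 / (4 * (d i : ℝ))))
    (fun L _ _ D hD ε hε => by
      obtain ⟨T, hT, hTε⟩ := Pool.Agent.TH120.Sec.supply_split 2 Nat.prime_two D hD _ hδ0 hδ1 ε hε
      exact ⟨T, fun v hv => ⟨(hT v hv).1, trivial⟩, hTε⟩)
    (fun L _ _ v _ => Pool.Agent.K3h23.BI.badM_card v d hd e)
    (fun c => GoodC R k d fun i => c (e i))
    (by
      intro L _ _ v _ h2 P hint ψ hψ c y hcy hy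
      obtain ⟨g1, g2, g3⟩ := Pool.Agent.K3h23.BI.goodM_iff v d e y hy
      exact Pool.Agent.K3h23.BI.dataM_embR v P ψ hint hψ d (c (e none))
        (fun i j => c (e (some ⟨i, j⟩))) (y (e none)) (fun i j => y (e (some ⟨i, j⟩)))
        (hcy _) (fun i j => hcy _) g1 g2 g3)
    ε hε
  refine ⟨J, hJ, le_trans ?_ hle⟩
  rw [reindex e]
  have hsub : {t : Fin (Fintype.card (Index d)) → R | (fun i => t (e i)) ∈
      Exceptional.{v, w, y} R k d} ⊆
      {c | ¬ GoodC R k d fun i => c (e i)} := by
    intro c hc hgood
    apply hc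
    have hd' := hgood.2.2
    refine ⟨hgood.1, fun i => ⟨Pool.Agent.TH377.Sup.pol_natDegree _ (hgood.2.1 i), ?_⟩, ?_⟩
    · obtain ⟨A, hA, f, hf, hlc, hirr, -⟩ := hd'
      have h1 := irr_of_reduction (k := k) _ (hlc i) (hirr i)
      rw [hf i] at h1
      exact h1
    · intro L _ _ _ _ _ M hM0 hM hL n hn
      have key := fun j => of_good.{v, w, y} d _ hgood L M hM0 hM hL n hn j
      exact ⟨key, fun e => superelliptic _ _ _ _ e (key e)⟩
  exact_mod_cast Set.ncard_le_ncard (Set.image_mono hsub) (Set.toFinite _)

end Pool.Agent.Results.MP_8312c9_nt.AlmostAllNormHypersurfaces
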