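import Pool.Agent.K3h23.BI.Loc
import Pool.Agent.W623.SecF.Kt

/-!
# The degrees of the fields over which norm hypersurfaces have birational sections

Let `k` be any field of characteristic zero, `f_1, …, f_r` polynomials over `k`, `n ≥ 1` and `a ∈ k`
nonzero.  We consider all fields `F` which contain a finite extension `L` of `k` and a point of one of
the hypersurfaces

`a yⁿ = ∏_i N_i`, `N_i = ∏ h_i(θ)` over all roots `θ` of `f_i`, `h_i` a polynomial over `F`, `y ≠ 0`,

for instance the function field of the superelliptic curve `a yⁿ = ∏ f_i(x)^(e_i)` over `L`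
(`h_i = (x - X)^(e_i)`), or of any variety over `L` which has a rational map to a hypersurface of this
kind.

1. If the absolute Galois group of `F` has a section over `G_L`, then `a ^ [L : k]` is a product of an
`n`-th power in `k` and of norms from the fields `k[X]/(p)`, `p` an irreducible factor of one of the
`f_i`.  Already a section of `Gal(N/F) → G_L` is enough, where `N` is generated over `F` by the
algebraic closure of `k` and by the roots of order `n` of the `h_i(θ)`; this extension is abelian of
exponent `n` over `F k̄`.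

2. Let `A` be a discrete valuation ring of `k` with an arbitrary residue field `κ`, let the `f_i` have
coefficients in `A` and unit leading coefficients, and let `M` be a natural number such that the
degrees of all irreducible factors over `κ` of the reductions of the `f_i` are divisible by `M`; the
reductions may have multiple factors.  If `M ∣ n` and there is a section as in 1. over the finite
extension `L` of `k` (roots of order `M` are enough), then `M` divides `v(a) [L : k]`.  So for `a` with
`v(a)` prime to `M` there are birational sections only over extensions `L` whose degree is divisible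
by `M`.

3. Let `K` be any field of characteristic zero and `k = K(t)`.  The same is true if the `f_i` have
coefficients in `K` and their irreducible factors over `K` have degrees divisible by `M`, with the
order of `a ∈ K(t)` at `t = 0` in the place of `v(a)`.  For example, let `f ∈ K[x]` be a power of an
irreducible polynomial of degree `d`, and let `a(t)` have a simple zero or pole at `t = 0`.  Then the
curve `a(t) yⁿ = f(x)` has birational sections only over the extensions of `K(t)` whose degree is
divisible by `gcd(n, d)`; if `f` is irreducible and `d ∣ n` this is best possible, as the curve has the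
points `(θ, 0)` over the extension `K(θ)(t)` of degree `d`.

The starting result `MP_8312c9_nt.FactorDegrees` treats superelliptic curves over `k` itself, `f_i`
with separable reduction, and exponents `d` such that the degrees of the factors are divisible by `2d`
if `d` is even; it also treats fundamental groups, for which the factor 2 is needed.  Here nothing is
lost at the prime 2 (the roots of the functions `x - θ` can be used, not only those of
`(x - θ)/(x - θ')`), the reductions may have multiple factors, and the degrees of all finite extensions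
are controlled.  The starting result `MP_e66f84_ag.NormCurvesAnyField` controls all finite extensions
for plane curves given by norm forms with the same restrictions (separable reduction, twice the degree
at the prime 2).

Proof.  The norm principle `Pool.Agent.W620.SC.norm_principle` over `L` (Hilbert 90 for the action of
`G_L` through the section) shows that `a` is a product of an `n`-th power in `L` and of norms from the
fields `L(θ)`, `θ` a root of one of the `f_i`.  Take the norm from `L` to `k`: the norm from `L(θ)` to
`k` of an element is the norm from `k(θ)` of some element.  The valuation at `A` of the norm of an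
element `c` of `E = k(θ)` is the sum of `f_w w(c)` over the places `w` of `E` above `A`, and the residue
field of `w` contains a root of the reduction of `f_i`, so that the residue degree `f_w` is divisible
by `M`.
-/

open Polynomial

namespace Pool.Agent.Results.MP_8312c9_nt.BirationalIndex

universe u v w x y

section definitions

/-- Let `L ⊆ F ⊆ N ⊆ Ω` be fields, `L̄` the algebraic closure of `L` in `Ω`.  A section of
`Gal(N/F) → Gal(L̄/L)`: a continuous homomorphism `s` from `Gal(L̄/L)` to `Gal(N/F)` such that `s(σ)`
acts as `σ` on the elements of `L̄` in `N`. -/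
structure GaloisSection (L : Type x) (F : Type v) (Ω : Type w) [Field L] [Field F] [Field Ω]
    [Algebra L F] [Algebra F Ω] [Algebra L Ω] (N : IntermediateField F Ω) where
  /-- the homomorphism `Gal(L̄/L) → Gal(N/F)` -/
  toHom : (algebraicClosure L Ω ≃ₐ[L] algebraicClosure L Ω) →* (N ≃ₐ[F] N)
  cont : Continuous toHom
  compat : ∀ (σ : algebraicClosure L Ω ≃ₐ[L] algebraicClosure L Ω) (c : algebraicClosure L Ω)
    (z : N), (z : Ω) = c → (toHom σ z : Ω) = σ c

/-- The product of the values `h(θ)` over the roots `θ` in `Ω` of the polynomial `f`, counted with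
multiplicities. -/
noncomputable def rootProduct {L : Type x} {F : Type v} (Ω : Type w) [Field L] [Field F] [Field Ω]
    [Algebra F Ω] [Algebra L Ω] (f : L[X]) (h : F[X]) : Ω :=
  ((f.aroots Ω).map fun θ => aeval θ h).prod

/-- `a yⁿ = ∏_i ∏ h_i(θ)`, the inner products over the roots `θ` of `f_i`, and `y ≠ 0`. -/
def NormPoint {L : Type x} {F : Type v} (Ω : Type w) [Field L] [Field F] [Field Ω] [Algebra F Ω]
    [Algebra L Ω] {I : Type} [Fintype I] (n : ℕ) (a : L) (f : I → L[X]) (y : F) (h : I → F[X]) :
    Prop :=
  y ≠ 0 ∧ algebraMap L Ω a * algebraMap F Ω y ^ n = ∏ i, rootProduct Ω (f i) (h i)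

/-- The extension `N` of `F` contains the algebraic closure of `L` and a root of order `d` of `h_i(θ)`
for all roots `θ` of `f_i`. -/
def ContainsRoots {L : Type x} {F : Type v} {Ω : Type w} [Field L] [Field F] [Field Ω]
    [Algebra F Ω] [Algebra L Ω] {I : Type} (d : ℕ) (f : I → L[X]) (h : I → F[X])
    (N : IntermediateField F Ω) : Prop :=
  (∀ c : algebraicClosure L Ω, (c : Ω) ∈ N) ∧
    ∀ i, ∀ θ : Ω, aeval θ (f i) = 0 → ∃ z ∈ N, z ^ d = aeval θ (h i)

/-- No field `F` over `L` which contains a point of a hypersurface `a yⁿ = ∏_i ∏ h_i(θ)` has a section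
of `Gal(N/F) → G_L`, where `Ω` is an algebraic closure of `F` and `N ⊆ Ω` contains the algebraic
closure of `L` and the roots of order `d` of the `h_i(θ)`.  For `N = Ω` these are the sections of the
absolute Galois group of `F`. -/
def NoSections {L : Type x} [Field L] {I : Type} [Fintype I] (d n : ℕ) (a : L) (f : I → L[X]) :
    Prop :=
  ∀ (F : Type v) (Ω : Type w) [Field F] [Field Ω] [Algebra L F] [Algebra F Ω] [Algebra L Ω]
    [IsScalarTower L F Ω] [IsAlgClosure F Ω] (y : F) (h : I → F[X]) (N : IntermediateField F Ω),
    NormPoint Ω n a f y h → ContainsRoots d f h N → IsEmpty (GaloisSection L F Ω N)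

/-- No field `F` over `L` which contains a point `(x, y)`, `y ≠ 0`, of the curve
`a yⁿ = ∏ f_i(x)^(e_i)` has a section of `Gal(N/F) → G_L`, where `Ω` is an algebraic closure of `F` and
`N ⊆ Ω` contains the algebraic closure of `L` and the roots of order `d` of the functions `x - θ`, `θ` a
root of one of the `f_i`. -/
def NoSuperellipticSections {L : Type x} [Field L] {I : Type} [Fintype I] (d n : ℕ) (a : L)
    (f : I → L[X]) (e : I → ℕ) : Prop :=
  ∀ (F : Type v) (Ω : Type w) [Field F] [Field Ω] [Algebra L F] [Algebra F Ω] [Algebra L Ω]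
    [IsScalarTower L F Ω] [IsAlgClosure F Ω] (x y : F) (N : IntermediateField F Ω),
    y ≠ 0 → algebraMap L F a * y ^ n = ∏ i, aeval x (f i) ^ e i →
    (∀ c : algebraicClosure L Ω, (c : Ω) ∈ N) →
    (∀ i, ∀ θ : Ω, aeval θ (f i) = 0 → ∃ z ∈ N, z ^ d = algebraMap F Ω x - θ) →
    IsEmpty (GaloisSection L F Ω N)

/-- The group generated by the `n`-th powers in `k` and by the norms of the fields `k[X]/(p)`, `p` an
irreducible factor of one of the `f_i`. -/
def normGroup {k : Type u} [Field k] {I : Type} (n : ℕ) (f : I → k[X]) : Subgroup kˣ :=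
  Subgroup.closure {u | (∃ r : kˣ, u = r ^ n) ∨ ∃ (i : I) (p : k[X]), Irreducible p ∧ p ∣ f i ∧
    ∃ c : AdjoinRoot p, (u : k) = Algebra.norm k c}

/-- The degrees of all irreducible factors of the `f_i` are divisible by `M`. -/
def FactorsDivisible {κ : Type y} [Field κ] {I : Type} (M : ℕ) (f : I → κ[X]) : Prop :=
  ∀ i, ∀ g : κ[X], Irreducible g → g ∣ f i → M ∣ g.natDegree

/-- `a` has the valuation `m` at `A`. -/
def HasValuation {k : Type u} [Field k] (A : ValuationSubring k) (m : ℤ) (a : k) : Prop :=
  ∃ ϖ t : A, Irreducible ϖ ∧ IsUnit t ∧ a = (t : k) * (ϖ : k) ^ m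

/-- `a = t^m p(t)/q(t)` with `p(0), q(0) ≠ 0`: a rational function of order `m` at `t = 0`. -/
def HasOrder (K : Type y) {k : Type u} [Field K] [Field k] [Algebra K k] (t : k) (m : ℤ)
    (a : k) : Prop :=
  ∃ p q : K[X], p.eval 0 ≠ 0 ∧ q.eval 0 ≠ 0 ∧ a = t ^ m * (aeval t p / aeval t q)

/-- (1) -/
def NormStatement : Prop :=
  ∀ (k : Type u) (L : Type x) [Field k] [CharZero k] [Field L] [Algebra k L]
    [FiniteDimensional k L] (I : Type) [Fintype I] (f : I → k[X]), (∀ i, f i ≠ 0) →
    ∀ n : ℕ, 0 < n → ∀ a : kˣ, a ^ Module.finrank k L ∉ normGroup n f →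
    NoSections.{v, w} n n (algebraMap k L a) (fun i => (f i).map (algebraMap k L))

/-- (2) -/
def LocalStatement : Prop :=
  ∀ (k : Type u) (L : Type x) [Field k] [CharZero k] [Field L] [Algebra k L]
    [FiniteDimensional k L] (A : ValuationSubring k) [IsDiscreteValuationRing A]
    (κ : Type y) [Field κ] (ρ : A →+* κ), Function.Surjective ρ →
    ∀ (I : Type) [Fintype I] (f : I → A[X]), (∀ i, IsUnit (f i).leadingCoeff) →
    ∀ M : ℕ, 0 < M → FactorsDivisible M (fun i => (f i).map ρ) →
    ∀ (a : k) (m : ℤ), HasValuation A m a → ¬ (M : ℤ) ∣ m * Module.finrank k L →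
    ∀ n : ℕ, M ∣ n →
    NoSections.{v, w} M n (algebraMap k L a)
        (fun i => ((f i).map (algebraMap A k)).map (algebraMap k L)) ∧
      ∀ e : I → ℕ, NoSuperellipticSections.{v, w} M n (algebraMap k L a)
        (fun i => ((f i).map (algebraMap A k)).map (algebraMap k L)) e

/-- (3) -/
def FunctionFieldStatement : Prop :=
  ∀ (K : Type y) [Field K] [CharZero K] (k : Type u) (L : Type x) [Field k] [Algebra K k]
    [Field L] [Algebra k L] [FiniteDimensional k L] (t : k),
    Transcendental K t → IntermediateField.adjoin K {t} = (⊤ : IntermediateField K k) →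
    ∀ (I : Type) [Fintype I] (f : I → K[X]), (∀ i, f i ≠ 0) →
    ∀ M : ℕ, 0 < M → FactorsDivisible M f →
    ∀ (a : k) (m : ℤ), HasOrder K t m a → ¬ (M : ℤ) ∣ m * Module.finrank k L →
    ∀ n : ℕ, M ∣ n →
    NoSections.{v, w} M n (algebraMap k L a)
        (fun i => ((f i).map (algebraMap K k)).map (algebraMap k L)) ∧
      ∀ e : I → ℕ, NoSuperellipticSections.{v, w} M n (algebraMap k L a)
        (fun i => ((f i).map (algebraMap K k)).map (algebraMap k L)) e

end definitions

section proof

open Pool.Agent.K3h23.BI

lemma contains_roots {L : Type x} {F : Type v} {Ω : Type w} [Field L] [Field F] [Field Ω]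
    [Algebra F Ω] [Algebra L Ω] {I : Type} {d : ℕ} {f : I → L[X]} {h : I → F[X]}
    {N : IntermediateField F Ω} (hN : ContainsRoots d f h N) :
    (∀ x ∈ algebraicClosure L Ω, x ∈ N) ∧ ∀ i, ∀ ρ ∈ (f i).aroots Ω, ∃ w ∈ N,
      w ^ d = aeval ρ (h i) := by
  refine ⟨fun x hx => hN.1 ⟨x, hx⟩, fun i ρ hρ => hN.2 i ρ ?_⟩
  rw [mem_aroots] at hρ
  exact hρ.2

theorem norm_statement : NormStatement.{u, v, w, x} := by
  intro k L _ _ _ _ _ I _ f hf n hn a ha F Ω _ _ _ _ _ _ _ y h N hp hN
  have hcl : IsAlgClosed Ω := IsAlgClosure.isAlgClosed F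
  have halg : Algebra.IsAlgebraic F Ω := IsAlgClosure.isAlgebraic
  obtain ⟨h1, h2⟩ := contains_roots hN
  refine ⟨fun S => ha ?_⟩
  exact section_NG N h1 hn f hf h a y hp.1 hp.2 h2 ⟨S.toHom, S.cont, S.compat⟩

/-- the equation with the exponent `n` gives one with the exponent `M` -/
lemma normPoint_dvd {L : Type x} {F : Type v} {Ω : Type w} [Field L] [Field F] [Field Ω]
    [Algebra F Ω] [Algebra L Ω] {I : Type} [Fintype I] {n M : ℕ} (hMn : M ∣ n) {a : L}
    {f : I → L[X]} {y : F} {h : I → F[X]} (hp : NormPoint Ω n a f y h) :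
    ∃ y', NormPoint Ω M a f y' h := by
  obtain ⟨j, rfl⟩ := hMn
  refine ⟨y ^ j, pow_ne_zero _ hp.1, ?_⟩
  rw [← hp.2, map_pow, ← pow_mul, mul_comm j]

/-- superelliptic curves -/
theorem superelliptic {L : Type x} [Field L] [CharZero L] {I : Type} [Fintype I] (d n : ℕ) (a : L)
    (f : I → L[X]) (hf : ∀ i, f i ≠ 0) (e : I → ℕ)
    (h : NoSections.{v, w} d n (a / ∏ i, (f i).leadingCoeff ^ e i) f) :
    NoSuperellipticSections.{v, w} d n a f e := by
  intro F Ω _ _ _ _ _ _ _ x y N hy hxy hN1 hN2
  have hcl : IsAlgClosed Ω := IsAlgClosure.isAlgClosed F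
  have hlc : ∏ i, (f i).leadingCoeff ^ e i ≠ 0 :=
    Finset.prod_ne_zero_iff.2 fun i _ => pow_ne_zero _ (leadingCoeff_ne_zero.2 (hf i))
  refine h F Ω y (fun i => (C x - X) ^ e i) N ⟨hy, ?_⟩ ⟨hN1, ?_⟩
  · have h1 : ∀ i, algebraMap F Ω (aeval x (f i)) =
        algebraMap L Ω (f i).leadingCoeff *
          (((f i).aroots Ω).map (fun θ => algebraMap F Ω x - θ)).prod := by
      intro i
      have h2 : ((f i).map (algebraMap L Ω)).Splits := IsAlgClosed.splits _
      have h3 := h2.eval_eq_prod_roots (algebraMap F Ω x)
      rw [leadingCoeff_map, eval_map_algebraMap, aeval_algebraMap_apply] at h3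
      exact h3
    have h2 : ∀ i, rootProduct Ω (f i) ((C x - X) ^ e i) =
        (((f i).aroots Ω).map (fun θ => algebraMap F Ω x - θ)).prod ^ e i := by
      intro i
      unfold rootProduct
      rw [← Multiset.prod_map_pow]
      congr 1
      refine Multiset.map_congr rfl fun θ _ => ?_
      rw [map_pow, map_sub, aeval_C, aeval_X]
    have h3 := congrArg (algebraMap F Ω) hxy
    rw [map_mul, map_pow, map_prod, ← IsScalarTower.algebraMap_apply L F Ω] at h3
    have h4 : ∏ i, algebraMap F Ω (aeval x (f i) ^ e i) =
        algebraMap L Ω (∏ i, (f i).leadingCoeff ^ e i) *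
          ∏ i, rootProduct Ω (f i) ((C x - X) ^ e i) := by
      rw [map_prod, ← Finset.prod_mul_distrib]
      refine Finset.prod_congr rfl fun i _ => ?_
      rw [map_pow, h1, mul_pow, h2, map_pow]
    rw [h4] at h3
    have h5 : algebraMap L Ω (∏ i, (f i).leadingCoeff ^ e i) ≠ 0 := (_root_.map_ne_zero _).2 hlc
    rw [map_div₀, div_mul_eq_mul_div, h3, mul_div_cancel_left₀ _ h5]
  · intro i θ hθ
    obtain ⟨z, hz, hzd⟩ := hN2 i θ hθ
    refine ⟨z ^ e i, pow_mem hz _, ?_⟩
    rw [← pow_mul, mul_comm, pow_mul, hzd, map_pow, map_sub, aeval_C, aeval_X]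

theorem local_statement : LocalStatement.{u, v, w, x, y} := by
  intro k L _ _ _ _ _ A _ κ _ ρ hρ I _ f hlc M hM0 hM a m hv hmL n hMn
  have hczL : CharZero L := charZero_of_injective_algebraMap (algebraMap k L).injective
  have key : ∀ a : k, HasValuation A m a → NoSections.{v, w} M n (algebraMap k L a)
      (fun i => ((f i).map (algebraMap A k)).map (algebraMap k L)) := by
    intro a hv F Ω _ _ _ _ _ _ _ y h N hp hN
    have hcl : IsAlgClosed Ω := IsAlgClosure.isAlgClosed F
    have halg : Algebra.IsAlgebraic F Ω := IsAlgClosure.isAlgebraic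
    obtain ⟨h1, h2⟩ := contains_roots hN
    obtain ⟨ϖ, t, hϖ, ht, ha⟩ := hv
    obtain ⟨y', hy', hp'⟩ := normPoint_dvd hMn hp
    refine ⟨fun S => hmL ?_⟩
    exact section_dvd A ρ hρ N h1 hM0 f hlc hM ϖ t hϖ ht m a ha h y' hy' hp' h2
      ⟨S.toHom, S.cont, S.compat⟩
  refine ⟨key a hv, fun e => ?_⟩
  have hf0 : ∀ i, f i ≠ 0 := by
    intro i h0
    have h2 := (hlc i).ne_zero
    rw [h0, leadingCoeff_zero] at h2
    exact h2 rfl
  have hinj : Function.Injective (algebraMap A k) := IsFractionRing.injective A k
  have hlc' : ∀ i, (((f i).map (algebraMap A k)).map (algebraMap k L)).leadingCoeff =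
      algebraMap k L (((f i).leadingCoeff : A) : k) := by
    intro i
    rw [leadingCoeff_map, leadingCoeff_map_of_injective hinj]
    rfl
  refine superelliptic M n _ _ (fun i => ?_) e ?_
  · exact (Polynomial.map_ne_zero_iff (algebraMap k L).injective).2
      ((Polynomial.map_ne_zero_iff hinj).2 (hf0 i))
  · have h1 : algebraMap k L a / ∏ i,
        (((f i).map (algebraMap A k)).map (algebraMap k L)).leadingCoeff ^ e i =
        algebraMap k L (a / ((∏ i, (f i).leadingCoeff ^ e i : A) : k)) := by
      have h0 : ((∏ i, (f i).leadingCoeff ^ e i : A) : k) =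
          ∏ i, (((f i).leadingCoeff : A) : k) ^ e i := by push_cast; rfl
      rw [map_div₀, h0, map_prod]
      congr 1
      refine Finset.prod_congr rfl fun i _ => ?_
      rw [hlc', map_pow]
    rw [h1]
    apply key
    obtain ⟨ϖ, t, hϖ, ht, ha⟩ := hv
    have hu : IsUnit (∏ i, (f i).leadingCoeff ^ e i : A) := by
      rw [IsUnit.prod_univ_iff]
      exact fun i => (hlc i).pow _
    obtain ⟨u, hu⟩ := hu
    refine ⟨ϖ, t * ((u⁻¹ : Aˣ) : A), hϖ, ht.mul (Units.isUnit _), ?_⟩
    rw [← hu, ha]
    have h2 : ((u : A) : k) * (((u⁻¹ : Aˣ) : A) : k) = 1 := by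
      have h3 := congrArg (fun z : A => (z : k)) u.mul_inv
      exact h3
    have h3 : ((u : A) : k) ≠ 0 := left_ne_zero_of_mul_eq_one h2
    rw [div_eq_iff h3]
    push_cast
    linear_combination (-(t : k) * (ϖ : k) ^ m) * h2

theorem function_field_statement : FunctionFieldStatement.{u, v, w, x, y} := by
  intro K _ _ k L _ _ _ _ _ t ht htop I _ f hf M hM0 hM a m hord hmL n hMn
  have hcz : CharZero k := charZero_of_injective_algebraMap (algebraMap K k).injective
  obtain ⟨A, hA, ρ, j, hρ, hρi, hi, hX, hunit⟩ := Pool.Agent.W623.SecF.exists_dvr t ht htop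
  obtain ⟨p, q, hp, hq, ha⟩ := hord
  have hinj : Function.Injective (j.comp C) := (j.comp C).injective
  have hρC : (ρ.comp (j.comp C)) = RingHom.id K := by
    ext c
    change ρ (j (C c)) = c
    rw [hρi, eval_C]
  have hgρ : ∀ i, ((f i).map (j.comp C)).map ρ = f i := by
    intro i
    rw [Polynomial.map_map, hρC, Polynomial.map_id]
  have hgk : ∀ i, ((f i).map (j.comp C)).map (algebraMap A k) = (f i).map (algebraMap K k) := by
    intro i
    rw [Polynomial.map_map]
    congr 1
    ext c
    change ((j (C c) : A) : k) = _
    rw [hi, aeval_C]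
  have hlc : ∀ i, IsUnit ((f i).map (j.comp C)).leadingCoeff := by
    intro i
    rw [leadingCoeff_map_of_injective hinj]
    exact (isUnit_iff_ne_zero.2 (leadingCoeff_ne_zero.2 (hf i))).map (j.comp C)
  obtain ⟨v, hv⟩ := hunit q hq
  have ha' : HasValuation A m a := by
    refine ⟨j X, j p * ((v⁻¹ : Aˣ) : A), hX, (hunit p hp).mul (Units.isUnit _), ?_⟩
    have h1 : ((j X : A) : k) = t := by rw [hi, aeval_X]
    have h2 : (((v⁻¹ : Aˣ) : A) : k) = (aeval t q)⁻¹ := by
      have h3 : ((v : A) : k) * (((v⁻¹ : Aˣ) : A) : k) = 1 := by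
        have h4 := v.mul_inv
        exact_mod_cast congrArg (fun z : A => (z : k)) h4
      rw [hv, hi] at h3
      exact eq_inv_of_mul_eq_one_right h3
    have h5 : ((j p * ((v⁻¹ : Aˣ) : A) : A) : k) = aeval t p / aeval t q := by
      change ((j p : A) : k) * (((v⁻¹ : Aˣ) : A) : k) = _
      rw [hi, h2, div_eq_mul_inv]
    rw [h5, h1, ha, mul_comm]
  have h6 := local_statement.{u, v, w, x, y} k L A K ρ hρ I (fun i => (f i).map (j.comp C)) hlc M
    hM0 (by
      intro i g hg hgf
      refine hM i g hg ?_
      simp only [hgρ] at hgf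
      exact hgf) a m ha' hmL n hMn
  simp only [hgk] at h6
  exact h6

end proof

/-- (1) Let `k` be a field of characteristic zero, `L` a finite extension, `f_i` nonzero polynomials
over `k`, `n ≥ 1` and `a ∈ k` nonzero.  If a field `F` over `L` contains a point `(y, h)`, `y ≠ 0`, of the
hypersurface `a yⁿ = ∏_i ∏ h_i(θ)` (inner products over the roots `θ` of `f_i`), and `Gal(N/F) → G_L` has
a section for an extension `N` of `F` which contains the algebraic closure of `k` and the roots of
order `n` of the `h_i(θ)`, for instance for the algebraic closure of `F`, then `a ^ [L : k]` is a product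
of an `n`-th power in `k` and norms from fields `k[X]/(p)`, `p` an irreducible factor of some `f_i`.
(2) Let `A` be a discrete valuation ring of `k` with an arbitrary residue field `κ`, let the `f_i` have
coefficients in `A` and unit leading coefficients, let the degrees of all irreducible factors over `κ`
of their reductions be divisible by `M`, and let `M ∣ n`.  If there is such a section (with roots of
order `M`), for one of these hypersurfaces or for one of the curves `a yⁿ = ∏ f_i(x)^(e_i)`, then `M`
divides `v(a) [L : k]`.  (3) The same for `k = K(t)`, `K` any field of characteristic zero, `f_i` over `K`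
whose irreducible factors over `K` have degrees divisible by `M`, and the order of `a ∈ K(t)` at
`t = 0`. -/
theorem result : NormStatement.{u, v, w, x} ∧ LocalStatement.{u, v, w, x, y} ∧
    FunctionFieldStatement.{u, v, w, x, y} :=
  ⟨norm_statement, local_statement, function_field_statement⟩

end Pool.Agent.Results.MP_8312c9_nt.BirationalIndex
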