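import Pool.Agent.K3h82.QF.Hom
import Pool.Agent.K3h82.QF.Tr

/-!
# Birational sections and quadrics

Let `k` be any field of characteristic zero, `F` an extension of `k`, for instance the function field
of a curve `X` over `k`, and `Ω` an algebraic closure of `F`.  Suppose that `Gal(Ω/F) → G_k` has a
section `s`, or only `Gal(N/F) → G_k`, where `N ⊆ Ω` is a field which contains the algebraic closure
of `k`, the square roots of the elements of `F` and the square roots of the elements `1 + √g`, `g ∈ F`
(so it is enough to know a quotient of the absolute Galois group of `F` which is an extension of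
quotients of `G_k` and of groups of exponent two).

1. The pull-back of Kummer classes along `s` is a homomorphism `φ : Fˣ → kˣ/kˣ²` with `φ(c) = c` for
`c ∈ kˣ`.  If the quadratic form `⟨b_1, …, b_n⟩` over `F` is isotropic, then the form
`⟨φ(b_1), …, φ(b_n)⟩` over `k` is isotropic.

2. Quadratic forms over `k` which are isotropic over `F` are isotropic over `k`.  So a curve over `k`
which has a morphism to a quadric without rational points, of any dimension, does not have a birational
section.  This is true over all extensions `L` of `k` of odd degree.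

3. If `c y² = q_1(z_1) ⋯ q_r(z_r)`, with quadratic forms `q_i` over `k`, has a solution with `y ≠ 0` over
`F`, then it has a solution with `y ≠ 0` over `k`.

4. Let `K` be any field of characteristic zero and let `q_0`, `q_1` be anisotropic quadratic forms over
`K`.  A curve over an extension `L` of odd degree of `K(t)` with a morphism to the quadric
`q_0(z) + t q_1(w) = 0` does not have a birational section.  By iteration this gives curves over
finitely generated fields of every transcendence degree; for example, for `d ≥ 0` and a prime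
`p ≡ 3 mod 4` the quadric `∑_S t_S (x_S² + y_S² - p z_S² - p w_S²) = 0` over `ℚ(t_1, …, t_d)`, `S` running
through the subsets of `{1, …, d}` and `t_S = ∏_{i ∈ S} t_i`, of dimension `2 ^ (d + 2) - 2`.

So Question Q1 has a positive answer for all of these curves: they have neither points nor birational
sections.  A quadric of dimension at least three satisfies all conditions on sections of abelian
quotients (the elementary obstruction vanishes), and over number fields it has points over all
non-archimedean completions.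

Proof.  Let `g_1 + g_2 = g_3` in `Fˣ`.  Every `g ∈ Fˣ` is of the form `c z²` with `c ∈ kˣ` and
`z ∈ N` invariant under `s(G_k)`, by Hilbert 90; this defines `φ`.  Write `g_i = c_i z_i²` and
`δ² = -c_2/c_1`.  Then `1 - δ z_2/z_1` and `1 + δ z_2/z_1` are conjugate under `s(G_k)`, with the product
`g_3/g_1`.  By Hilbert 90 over `k(δ)`, `1 + δ z_2/z_1 = κ u²` with `κ ∈ k(δ)` and `u` invariant under
`s(G_{k(δ)})`.  So `c_3/c_1` is the norm of `κ` from `k(δ)`, up to the square of an invariant element
of `N` whose square is in `k`; this element is in `k`.  So `c_3 = c_1 x² + c_2 y²` for some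
`x, y ∈ k`.  By induction, the class `φ(b_1 + ⋯ + b_n)` is represented by `⟨φ(b_1), …, φ(b_n)⟩`.
-/

set_option autoImplicit false

open Pool.Agent.K3h82.QF

namespace Pool.Agent.Results.MP_8312c9_nt.Quadrics

universe u v w x

section definitions

/-- Let `k ⊆ F ⊆ N ⊆ Ω` be fields, `k̄` the algebraic closure of `k` in `Ω`.  A section of
`Gal(N/F) → Gal(k̄/k)`: a continuous homomorphism `s` from `Gal(k̄/k)` to `Gal(N/F)` such that `s(σ)`
acts as `σ` on the elements of `k̄` in `N`. -/
structure GaloisSection (k : Type x) (F : Type v) (Ω : Type w) [Field k] [Field F] [Field Ω]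
    [Algebra k F] [Algebra F Ω] [Algebra k Ω] (N : IntermediateField F Ω) where
  /-- the homomorphism `Gal(k̄/k) → Gal(N/F)` -/
  toHom : (algebraicClosure k Ω ≃ₐ[k] algebraicClosure k Ω) →* (N ≃ₐ[F] N)
  cont : Continuous toHom
  compat : ∀ (σ : algebraicClosure k Ω ≃ₐ[k] algebraicClosure k Ω) (c : algebraicClosure k Ω)
    (z : N), (z : Ω) = c → (toHom σ z : Ω) = σ c

/-- The extension `N` of `F` contains the algebraic closure of `k`, the square roots of all elements
of `F` and the square roots of all elements `1 + v` with `v ^ 2 ∈ F`. -/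
def ContainsRoots (k : Type x) {F : Type v} {Ω : Type w} [Field k] [Field F] [Field Ω]
    [Algebra F Ω] [Algebra k Ω] (N : IntermediateField F Ω) : Prop :=
  (∀ c : algebraicClosure k Ω, (c : Ω) ∈ N) ∧
    (∀ (g : F) (z : Ω), z ^ 2 = algebraMap F Ω g → z ∈ N) ∧
    ∀ (g : F) (v z : Ω), v ^ 2 = algebraMap F Ω g → z ^ 2 = 1 + v → z ∈ N

/-- The value `∑ Q_ij z_i z_j` of the quadratic form with the matrix `Q` over `k` at a vector `z` over an
extension of `k`. -/
def value {k : Type u} [Field k] {n : ℕ} (Q : Matrix (Fin n) (Fin n) k) {R : Type v} [CommRing R]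
    [Algebra k R] (z : Fin n → R) : R :=
  ∑ i, ∑ j, algebraMap k R (Q i j) * z i * z j

/-- The quadratic form has no nontrivial zero over `k`: the quadric has no rational points. -/
def Anisotropic {k : Type u} [Field k] {n : ℕ} (Q : Matrix (Fin n) (Fin n) k) : Prop :=
  ∀ z : Fin n → k, z ≠ 0 → value Q z ≠ 0

/-- The group of the squares in `kˣ`. -/
def squares (k : Type u) [Field k] : Subgroup kˣ := (powMonoidHom 2 : kˣ →* kˣ).range

/-- (1) Let `s` be a section of `Gal(N/F) → G_k`.  There is a homomorphism `φ : Fˣ → kˣ/kˣ²`, the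
identity on `kˣ`, which is the pull-back of Kummer classes along `s`, and which maps the coefficients
of isotropic forms over `F` to the coefficients of isotropic forms over `k`. -/
def PullbackStatement : Prop :=
  ∀ (k : Type u) (F : Type v) (Ω : Type w) [Field k] [CharZero k] [Field F] [Field Ω]
    [Algebra k F] [Algebra F Ω] [Algebra k Ω] [IsScalarTower k F Ω] [IsAlgClosure F Ω]
    (N : IntermediateField F Ω), ContainsRoots k N → ∀ s : GaloisSection k F Ω N,
    ∃ φ : Fˣ →* kˣ ⧸ squares k,
      (∀ c : kˣ, φ (Units.map (algebraMap k F).toMonoidHom c) = QuotientGroup.mk c) ∧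
      (∀ (g : Fˣ) (c : kˣ), φ g = QuotientGroup.mk c →
        ∀ (y : N) (γ : algebraicClosure k Ω), y ^ 2 = algebraMap F N (g : F) →
        γ ^ 2 = algebraMap k (algebraicClosure k Ω) (c : k) →
        ∀ σ, (s.toHom σ y : Ω) * γ = (y : Ω) * (σ γ : algebraicClosure k Ω)) ∧
      ∀ (n : ℕ) (b : Fin n → Fˣ) (c : Fin n → kˣ), (∀ i, φ (b i) = QuotientGroup.mk (c i)) →
        (∃ z : Fin n → F, z ≠ 0 ∧ ∑ i, (b i : F) * z i ^ 2 = 0) →
        ∃ z : Fin n → k, z ≠ 0 ∧ ∑ i, (c i : k) * z i ^ 2 = 0

/-- (2) Let `Q` be a quadratic form over `k` without nontrivial zeros over `k`, and let `L` be an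
extension of `k` of odd degree.  If a field `F` over `L` contains a nontrivial zero of `Q`, there are no
sections of `Gal(N/F) → G_L`. -/
def QuadricStatement : Prop :=
  ∀ (k : Type u) [Field k] [CharZero k] (n : ℕ) (Q : Matrix (Fin n) (Fin n) k), Anisotropic Q →
    ∀ (L : Type x) [Field L] [Algebra k L] [FiniteDimensional k L], Odd (Module.finrank k L) →
    ∀ (F : Type v) (Ω : Type w) [Field F] [Field Ω] [Algebra k F] [Algebra L F]
      [IsScalarTower k L F] [Algebra F Ω] [Algebra L Ω] [IsScalarTower L F Ω] [IsAlgClosure F Ω]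
      (z : Fin n → F), z ≠ 0 → value Q z = 0 →
    ∀ N : IntermediateField F Ω, ContainsRoots L N → IsEmpty (GaloisSection L F Ω N)

/-- (3) Let `Q_1, …, Q_r` be quadratic forms over `k` and `c ∈ k` nonzero.  If there is a section of
`Gal(N/F) → G_k` and `c y² = ∏ Q_i(z_i)` has a solution with `y ≠ 0` over `F`, then it has a solution with
`y ≠ 0` over `k`. -/
def ProductStatement : Prop :=
  ∀ (k : Type u) [Field k] [CharZero k] (r : ℕ) (n : Fin r → ℕ)
    (Q : ∀ i, Matrix (Fin (n i)) (Fin (n i)) k) (c : k), c ≠ 0 →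
    (¬ ∃ (y : k) (z : ∀ i, Fin (n i) → k), y ≠ 0 ∧ c * y ^ 2 = ∏ i, value (Q i) (z i)) →
    ∀ (F : Type v) (Ω : Type w) [Field F] [Field Ω] [Algebra k F] [Algebra F Ω] [Algebra k Ω]
      [IsScalarTower k F Ω] [IsAlgClosure F Ω] (y : F) (z : ∀ i, Fin (n i) → F), y ≠ 0 →
      algebraMap k F c * y ^ 2 = ∏ i, value (Q i) (z i) →
    ∀ N : IntermediateField F Ω, ContainsRoots k N → IsEmpty (GaloisSection k F Ω N)

/-- (4) Let `Q_0`, `Q_1` be quadratic forms over `K` without nontrivial zeros over `K`, and let `L` be an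
extension of `K(t)` of odd degree.  If a field `F` over `L` contains a nontrivial zero of
`Q_0(z) + t Q_1(w)`, there are no sections of `Gal(N/F) → G_L`. -/
def TranscendentalStatement : Prop :=
  ∀ (K : Type u) [Field K] [CharZero K] (n m : ℕ) (Q₀ : Matrix (Fin n) (Fin n) K)
    (Q₁ : Matrix (Fin m) (Fin m) K), Anisotropic Q₀ → Anisotropic Q₁ →
    ∀ (L : Type x) [Field L] [Algebra (RatFunc K) L] [FiniteDimensional (RatFunc K) L],
      Odd (Module.finrank (RatFunc K) L) →
    ∀ (F : Type v) (Ω : Type w) [Field F] [Field Ω] [Algebra K F] [Algebra (RatFunc K) F]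
      [IsScalarTower K (RatFunc K) F] [Algebra L F] [IsScalarTower (RatFunc K) L F] [Algebra F Ω]
      [Algebra L Ω] [IsScalarTower L F Ω] [IsAlgClosure F Ω] (z : Fin n → F) (w : Fin m → F),
      ¬ (z = 0 ∧ w = 0) →
      value Q₀ z + algebraMap (RatFunc K) F RatFunc.X * value Q₁ w = 0 →
    ∀ N : IntermediateField F Ω, ContainsRoots L N → IsEmpty (GaloisSection L F Ω N)

end definitions

section proof

lemma closed2 {k : Type x} {F : Type v} {Ω : Type w} [Field k] [Field F] [Field Ω]
    [Algebra F Ω] [Algebra k Ω] [IsAlgClosed Ω] {N : IntermediateField F Ω}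
    (hN : ContainsRoots k N) : Closed2 F N := by
  refine ⟨fun g => ?_, fun g v hv => ?_⟩
  · obtain ⟨z, hz⟩ := IsAlgClosed.exists_pow_nat_eq (algebraMap F Ω g) (n := 2) two_pos
    exact ⟨⟨z, hN.2.1 g z hz⟩, Subtype.ext hz⟩
  · obtain ⟨z, hz⟩ := IsAlgClosed.exists_pow_nat_eq (1 + (v : Ω)) (n := 2) two_pos
    exact ⟨⟨z, hN.2.2 g v z (congrArg Subtype.val hv) hz⟩, Subtype.ext hz⟩

lemma act {k : Type x} {F : Type v} {Ω : Type w} [Field k] [Field F] [Field Ω] [Algebra k F]
    [Algebra F Ω] [Algebra k Ω] [IsScalarTower k F Ω] [IsAlgClosure F Ω]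
    {N : IntermediateField F Ω} (hN : ContainsRoots k N) (S : GaloisSection k F Ω N) :
    ∃ (s : (algebraicClosure k Ω ≃ₐ[k] algebraicClosure k Ω) →* RingAut N)
      (ι : algebraicClosure k Ω →+* N), Act (F := F) s ι ∧ (∀ σ z, s σ z = S.toHom σ z) ∧
        ∀ c, (ι c : Ω) = c := by
  have hcl : IsAlgClosed Ω := IsAlgClosure.isAlgClosed F
  have halg : Algebra.IsAlgebraic F Ω := IsAlgClosure.isAlgebraic
  exact exists_act' N (fun x hx => hN.1 ⟨x, hx⟩) S.toHom S.cont S.compat

lemma quadric {k : Type u} [Field k] [CharZero k] {n : ℕ} {Q : Matrix (Fin n) (Fin n) k}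
    (hQ : Anisotropic Q) {L : Type x} [Field L] [Algebra k L] [FiniteDimensional k L]
    (hodd : Odd (Module.finrank k L)) {F : Type v} {Ω : Type w} [Field F] [Field Ω] [Algebra k F]
    [Algebra L F] [IsScalarTower k L F] [Algebra F Ω] [Algebra L Ω] [IsScalarTower L F Ω]
    [IsAlgClosure F Ω] (z : Fin n → F) (hz : z ≠ 0) (hv : value Q z = 0)
    (N : IntermediateField F Ω) (hN : ContainsRoots L N) : IsEmpty (GaloisSection L F Ω N) := by
  have hcl : IsAlgClosed Ω := IsAlgClosure.isAlgClosed F
  have hcz : CharZero L := charZero_of_injective_algebraMap (algebraMap k L).injective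
  have hac : IsAlgClosure L (algebraicClosure L Ω) := inferInstance
  have hA : IsAlgClosed (algebraicClosure L Ω) := hac.1
  refine ⟨fun S => ?_⟩
  obtain ⟨s, ι, h, -, -⟩ := act hN S
  obtain ⟨y, hy0, hy⟩ := h.quadric (closed2 hN) (Q.map (algebraMap k L)) z hz (by
    rw [← hv]
    refine Finset.sum_congr rfl fun i _ => Finset.sum_congr rfl fun j _ => ?_
    rw [Matrix.map_apply, ← IsScalarTower.algebraMap_apply k L F])
  obtain ⟨x, hx0, hx⟩ := springer_odd hodd Q y hy0 (by
    rw [← hy]
    rfl)
  exact hQ x hx0 hx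

theorem pullback_statement : PullbackStatement.{u, v, w} := by
  intro k F Ω _ _ _ _ _ _ _ _ _ N hN S
  have hcl : IsAlgClosed Ω := IsAlgClosure.isAlgClosed F
  have hac : IsAlgClosure k (algebraicClosure k Ω) := inferInstance
  have hA : IsAlgClosed (algebraicClosure k Ω) := hac.1
  obtain ⟨s, ι, h, hs, hι⟩ := act hN S
  obtain ⟨φ, hφ⟩ : ∃ φ : Fˣ →* kˣ ⧸ squares k, ∀ (g : Fˣ) (c : kˣ),
      φ g = QuotientGroup.mk c ↔ Rep s ι (algebraMap F N (g : F)) (c : k) :=
    h.exists_hom (closed2 hN)
  refine ⟨φ, ?_, ?_, ?_⟩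
  · intro c
    rw [hφ]
    have h1 := rep_const (s := s) (ι := ι) (c := (c : k)) c.ne_zero
    rw [h.const] at h1
    exact h1
  · intro g c hg y γ hy hγ σ
    have h1 := h.kummer ((hφ g c).1 hg) hy hγ σ
    have h2 := congrArg (fun z : N => (z : Ω)) h1
    simp only [MulMemClass.coe_mul] at h2
    rw [hι, hι, hs] at h2
    exact h2
  · rintro n b c hbc ⟨z, hz0, hz⟩
    exact h.isotropic (closed2 hN) (fun i => (b i : F)) (fun i => (c i : k))
      (fun i => (hφ _ _).1 (hbc i)) z hz0 hz

theorem quadric_statement : QuadricStatement.{u, v, w, x} := by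
  intro k _ _ n Q hQ L _ _ _ hodd F Ω _ _ _ _ _ _ _ _ _ z hz hv N hN
  exact quadric hQ hodd z hz hv N hN

theorem product_statement : ProductStatement.{u, v, w} := by
  intro k _ _ r n Q c hc hno F Ω _ _ _ _ _ _ _ y z hy hyz N hN
  have hcl : IsAlgClosed Ω := IsAlgClosure.isAlgClosed F
  have hac : IsAlgClosure k (algebraicClosure k Ω) := inferInstance
  have hA : IsAlgClosed (algebraicClosure k Ω) := hac.1
  refine ⟨fun S => hno ?_⟩
  obtain ⟨s, ι, h, -, -⟩ := act hN S
  obtain ⟨x, y', hy', hx⟩ := h.product (closed2 hN) n Q c hc z y hy hyz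
  exact ⟨y', x, hy', hx⟩

theorem transcendental_statement : TranscendentalStatement.{u, v, w, x} := by
  intro K _ _ n m Q₀ Q₁ h₀ h₁ L _ _ _ hodd F Ω _ _ _ _ _ _ _ _ _ _ _ z w hzw hv N hN
  have hcz : CharZero (RatFunc K) :=
    charZero_of_injective_algebraMap (algebraMap K (RatFunc K)).injective
  have hK₀ : ∀ x : Fin n → K, ∑ i, ∑ j, Q₀ i j * x i * x j = 0 → x = 0 := fun x hx => by
    by_contra h
    exact h₀ x h hx
  have hK₁ : ∀ x : Fin m → K, ∑ i, ∑ j, Q₁ i j * x i * x j = 0 → x = 0 := fun x hx => by
    by_contra h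
    exact h₁ x h hx
  refine quadric (k := RatFunc K) (Q := orth (Q₀.map (algebraMap K (RatFunc K)))
    (Q₁.map (algebraMap K (RatFunc K))) RatFunc.X) ?_ hodd (Fin.append z w) ?_ ?_ N hN
  · intro x hx hv
    unfold value at hv
    rw [orth_val] at hv
    obtain ⟨e1, e2⟩ := ratFunc_zero Q₀ Q₁ hK₀ hK₁ (fun i => x (Fin.castAdd m i))
      (fun i => x (Fin.natAdd n i)) hv
    apply hx
    funext i
    refine Fin.addCases (fun i => congrFun e1 i) (fun i => congrFun e2 i) i
  · intro h
    apply hzw
    refine ⟨funext fun i => ?_, funext fun i => ?_⟩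
    · have := congrFun h (Fin.castAdd m i)
      rwa [Fin.append_left] at this
    · have := congrFun h (Fin.natAdd n i)
      rwa [Fin.append_right] at this
  · unfold value
    rw [orth_val, ← hv]
    unfold value
    simp only [Fin.append_left, Fin.append_right, Matrix.map_apply]
    congr 1
    · refine Finset.sum_congr rfl fun i _ => Finset.sum_congr rfl fun j _ => ?_
      rw [← IsScalarTower.algebraMap_apply K (RatFunc K) F]
    · congr 1
      refine Finset.sum_congr rfl fun i _ => Finset.sum_congr rfl fun j _ => ?_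
      rw [← IsScalarTower.algebraMap_apply K (RatFunc K) F]

end proof

/-- Sections of the absolute Galois groups of function fields over fields `k` of characteristic zero,
and quadratic forms: (1) the pull-back of Kummer classes along a section maps isotropic forms to
isotropic forms; (2) there are no sections for curves (or varieties) over extensions `L` of `k` of odd
degree with a rational map to a quadric over `k` without rational points; (3) the same for hypersurfaces
`c y² = ∏ q_i(z_i)` and `L = k`; (4) examples over all purely transcendental extensions. -/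
theorem result : PullbackStatement.{u, v, w} ∧ QuadricStatement.{u, v, w, x} ∧
    ProductStatement.{u, v, w} ∧ TranscendentalStatement.{u, v, w, x} :=
  ⟨pullback_statement, quadric_statement, product_statement, transcendental_statement⟩

end Pool.Agent.Results.MP_8312c9_nt.Quadrics
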