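import Pool.Agent.K3h48.FG.Ext
import Pool.Agent.K3h48.FG.Laurent

/-!
# Birational sections of superelliptic curves over fields with a place

Let `ℓ` be any prime number, let `p ≠ q` be primes and let `χ`, `ψ` be surjective characters
`(ℤ/p)^* → ℤ/ℓ`, `(ℤ/q)^* → ℤ/ℓ` such that `q` and `-1` are `ℓ`-th powers modulo `p` and `p` and
`-1` are `ℓ`-th powers modulo `q`.  Through `Gal(ℚ(ζ_{pq})/ℚ) = (ℤ/pq)^*` the characters `χ` and
`χ^j ψ` cut out `ℓ + 1` cyclic fields `K_i` of degree `ℓ`.

Let `K` be any field of characteristic zero, for instance a finitely generated field of any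
transcendence degree, with a place `r : V → κ` whose values are in a number field `κ` (`V` is a
valuation ring of `K` of any rank).  Let `f` be a product of different monic irreducible nonlinear
polynomials over `K` each of which has a root in one of the algebras `K ⊗ K_i = K[x]/(P_i)`, every
`i` occurring.  Let `a ∈ V` be such that for some `m ≠ 0` the sum `∑ v_s(N r(a)) χ(s)` over the
primes `s` with `ψ(s) = m χ(s)` is not zero modulo `ℓ`, where `N` is the norm from `κ` to `ℚ`.

Then for every `n` divisible by `ℓ` the curve `a y^n = f(x)` has points over every extension of `K`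
that contains `ℝ` or one of the fields `ℚ_s`, but the absolute Galois group of its function field
has no section over `K`, and neither have the fundamental groups of its open subcurves.  So the
birational section conjecture holds for these curves, both sides are empty, although there are
points over all these extensions.  The same holds over all finite extensions of `K` of degree prime
to `ℓ`.

Every function field of a variety over `κ` with a smooth `κ`-rational point has such places: it can
be embedded in the field `κ((t))` of Laurent series, and the elements mapped to power series form a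
valuation ring `V`, with the constant coefficient as place.

Proof.  As in the case of a number field a section gives an equation `a = ρ^ℓ ∏_i N(c_i)` with
`ρ ∈ K` and `c_i ∈ K(θ_i)`, where `θ_i` generates `K_i`.  By the reciprocity argument for number
fields the analogous equation for `r(a)` over `κ` is impossible, which implies in particular that
all `κ ⊗ K_i` are fields.  So `K ⊗ K_i` are fields, too, and every `c ∈ K(θ_i)` is of the form
`c = π D(θ_i)` with `π ∈ K` and a polynomial `D` over `V` of degree less than `ℓ` with a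
coefficient `1`.  The reduction of `D(θ_i)` does not vanish, so `N(c) = π^ℓ u` with a unit `u` of
`V` whose value `r(u)` is a norm from `κ(θ_i)`.  Hence the equation over `K` could be reduced to
`κ`.  For extensions of degree `d` prime to `ℓ` one takes norms and uses `a^d` instead of `a`.
-/

open Polynomial LaurentSeries

namespace Pool.Agent.Results.MP_8312c9_nt.SuperellipticThroughPlaces

universe u v w x z

section definitions

variable (k : Type u) (F : Type v) (Ω : Type w) [Field k] [Field F] [Field Ω] [Algebra k F]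
  [Algebra F Ω] [Algebra k Ω]

/-- The inertia group of the valuation ring `W` of `Ω`, as a subgroup of `Gal(Ω/F)`: the
automorphisms of `Ω` over `F` that map `W` onto itself and act as the identity on its residue
field. -/
noncomputable def inertia (W : ValuationSubring Ω) : Subgroup (Ω ≃ₐ[F] Ω) :=
  (W.inertiaSubgroup F).map (W.decompositionSubgroup F).subtype

/-- `F_U`, for a set `U` of valuation rings of `F`: the elements of `Ω` fixed by the inertia groups
of all valuation rings `W` of `Ω` with `W ∩ F ∈ U`.  If `Ω` is an algebraic closure of a field `F`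
of characteristic zero, this is the maximal extension of `F` in `Ω` unramified over `U`. -/
noncomputable def unramified (U : Set (ValuationSubring F)) : IntermediateField F Ω :=
  ⨅ W : {W : ValuationSubring Ω // W.comap (algebraMap F Ω) ∈ U},
    IntermediateField.fixedField (inertia F Ω W.1)

/-- The map `τ : M → M` acts as `σ : K → K` on the elements that the fields `K` and `M` have in
common when they are regarded as subfields of `Ω` through `i` and `j`. -/
def ActsAs {K M Ω : Type*} [Field K] [Field M] [Field Ω] (i : K →+* Ω) (j : M →+* Ω) (σ : K → K)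
    (τ : M → M) : Prop :=
  ∀ c z, j z = i c → j (τ z) = i (σ c)

/-- Let `k ⊆ K ⊆ Ω` and `F ⊆ M ⊆ Ω` be fields.  A splitting of `Gal(M/F) → Gal(K/k)`: a continuous
homomorphism `s` from `Gal(K/k)` to `Gal(M/F)` such that `s(σ)` acts as `σ` on the elements of
`K ∩ M`. -/
structure Splitting (K M : Type*) [Field K] [Field M] [Algebra k K] [Algebra F M] [Algebra K Ω]
    [Algebra M Ω] where
  /-- the homomorphism `Gal(K/k) → Gal(M/F)` -/
  toHom : (K ≃ₐ[k] K) →* (M ≃ₐ[F] M)
  cont : Continuous toHom
  compat : ∀ σ : K ≃ₐ[k] K, ActsAs (algebraMap K Ω) (algebraMap M Ω) σ (toHom σ)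

/-- The sections of `π₁(U) = Gal(F_U/F) → G_k`: the continuous homomorphisms `s` from
`G_k = Gal(k̄/k)` to `Gal(F_U/F)`, where `k̄` is the algebraic closure of `k` in `Ω`, such that
`s(σ)` acts as `σ` on the elements of `k̄`. -/
def GaloisSection (U : Set (ValuationSubring F)) : Type w :=
  Splitting k F Ω (algebraicClosure k Ω) (unramified F Ω U)

end definitions

section arithmetic

variable {ℓ p q : ℕ} [Fact p.Prime] [Fact q.Prime]

/-- The character `χ` as a function on `ℤ/p` with values in the additive group `ℤ/ℓ`, extended by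
`0` to zero. -/
noncomputable def index (χ : (ZMod p)ˣ →* Multiplicative (ZMod ℓ)) (x : ZMod p) : ZMod ℓ :=
  if h : x = 0 then 0 else (χ (Units.mk0 x h)).toAdd

/-- The characters `χ` modulo `p` and `ψ` modulo `q` are surjective, `p ≠ q`, the numbers `q` and
`-1` are `ℓ`-th powers modulo `p`, and `p` and `-1` are `ℓ`-th powers modulo `q`. -/
structure Admissible (χ : (ZMod p)ˣ →* Multiplicative (ZMod ℓ))
    (ψ : (ZMod q)ˣ →* Multiplicative (ZMod ℓ)) : Prop where
  ne : p ≠ q
  surjective_left : Function.Surjective χ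
  surjective_right : Function.Surjective ψ
  q_power : ∃ u : ZMod p, u ^ ℓ = q
  p_power : ∃ u : ZMod q, u ^ ℓ = p
  neg_power_left : ∃ u : ZMod p, u ^ ℓ = -1
  neg_power_right : ∃ u : ZMod q, u ^ ℓ = -1

/-- `χ(r)` if `ψ(r) = m χ(r)`, and `0` otherwise -/
noncomputable def weight (χ : (ZMod p)ˣ →* Multiplicative (ZMod ℓ))
    (ψ : (ZMod q)ˣ →* Multiplicative (ZMod ℓ)) (m : ZMod ℓ) (r : ℕ) : ZMod ℓ :=
  if index ψ (r : ZMod q) = m * index χ (r : ZMod p) then index χ (r : ZMod p) else 0

/-- `∑ v_r(b) χ(r)` over all primes `r` with `ψ(r) = m χ(r)`, as an element of `ℤ/ℓ` -/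
noncomputable def invariant (χ : (ZMod p)ˣ →* Multiplicative (ZMod ℓ))
    (ψ : (ZMod q)ˣ →* Multiplicative (ZMod ℓ)) (m : ZMod ℓ) (b : ℚ) : ZMod ℓ :=
  ∑ r ∈ (b.num.natAbs * b.den).primeFactors, (padicValRat r b : ZMod ℓ) * weight χ ψ m r

/-- One of the invariants with `m ≠ 0` of the norm of `a` from `κ` to `ℚ` is not zero. -/
def Obstructed (χ : (ZMod p)ˣ →* Multiplicative (ZMod ℓ))
    (ψ : (ZMod q)ˣ →* Multiplicative (ZMod ℓ)) {κ : Type z} [Field κ] [NumberField κ] (a : κ) :
    Prop :=
  ∃ m : ZMod ℓ, m ≠ 0 ∧ invariant χ ψ m (Algebra.norm ℚ a) ≠ 0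

/-- The coefficients `(s, t)` of the characters `χ^s ψ^t`: the characters are `χ` and `χ^j ψ` for
`j ∈ ℤ/ℓ`. -/
def coefficients : Option (ZMod ℓ) → ZMod ℓ × ZMod ℓ
  | none => (1, 0)
  | some j => (j, 1)

/-- The automorphism `ζ ↦ ζ^n` of `ℚ(ζ_{pq})` fixes `θ` if and only if `χ(n)^s ψ(n)^t = 1`.  So `θ`
generates the fixed field of the kernel of the character `χ^s ψ^t`. -/
def IsGenerator (χ : (ZMod p)ˣ →* Multiplicative (ZMod ℓ))
    (ψ : (ZMod q)ˣ →* Multiplicative (ZMod ℓ)) (s t : ZMod ℓ) (θ : CyclotomicField (p * q) ℚ) :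
    Prop :=
  ∀ (σ : CyclotomicField (p * q) ℚ ≃ₐ[ℚ] CyclotomicField (p * q) ℚ) (n : ℕ),
    (∀ ζ, ζ ^ (p * q) = 1 → σ ζ = ζ ^ n) →
    (σ θ = θ ↔ s * index χ (n : ZMod p) + t * index ψ (n : ZMod q) = 0)

end arithmetic

/-- The homomorphism `r` from the valuation ring `V` of `K` to the field `κ` is a place: its kernel
is the maximal ideal of `V`. -/
def IsPlace {K : Type u} [Field K] (V : ValuationSubring K) {κ : Type z} [Field κ] (r : V →+* κ) :
    Prop :=
  ∀ x : V, r x ≠ 0 → (x : K)⁻¹ ∈ V

/-- The polynomial `g` over `k` is monic, irreducible and not linear, and it has a root in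
`k[x]/(P)`. -/
structure IsFactor {k : Type u} [Field k] [CharZero k] (P : ℚ[X]) (g : k[X]) : Prop where
  monic : g.Monic
  irreducible : Irreducible g
  not_linear : g.natDegree ≠ 1
  root : ∃ r : AdjoinRoot (P.map (algebraMap ℚ k)), aeval r g = 0

/-- The curve `a y^n = f(x)` has a point over the extension `L` of `k`. -/
def HasPoint {k : Type u} [Field k] (a : k) (f : k[X]) (n : ℕ) (L : Type x) [Field L]
    [Algebra k L] : Prop :=
  ∃ x y : L, algebraMap k L a * y ^ n = aeval x f

/-- The curve `a y^n = f(x)` has a point over every extension of `k` that contains `ℝ` or one of the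
fields `ℚ_r`; for instance, if `k` is a number field, over all its completions. -/
def LocallySoluble {k : Type u} [Field k] (a : k) (f : k[X]) (n : ℕ) : Prop :=
  ∀ (L : Type x) [Field L] [Algebra k L],
    (∃ (r : ℕ) (_ : Fact r.Prime), Nonempty (ℚ_[r] →+* L)) ∨ Nonempty (ℝ →+* L) →
      HasPoint a f n L

/-- Let `F` be any field over `k` that contains a point `(x, y)` of the curve `a y^n = f(x)` with
`y ≠ 0`, for instance the function field of the curve, and let `Ω` be an algebraic closure of `F`.
Then for every set `U` of valuation rings of `F` over `k` that contain `x` there is no section of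
`π₁(U) → G_k`.  If `F` is the function field of the curve, such `U` are given by all open subcurves
of the affine curve `a y^n = f(x)`. -/
def AffineNoSection {k : Type u} [Field k] (a : k) (f : k[X]) (n : ℕ) : Prop :=
  ∀ (F : Type v) (Ω : Type w) [Field F] [Field Ω] [Algebra k F] [Algebra F Ω] [Algebra k Ω]
    [IsScalarTower k F Ω] [IsAlgClosure F Ω] (x y : F) (U : Set (ValuationSubring F)),
    y ≠ 0 → algebraMap k F a * y ^ n = aeval x f →
    (∀ O ∈ U, x ∈ O ∧ ∀ c : k, algebraMap k F c ∈ O) → IsEmpty (GaloisSection k F Ω U)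

/-- The same for all sets `U` of valuation rings of `F` over `k`.  If `F` is the function field of
the curve, such `U` are given by all open subcurves of the smooth projective curve, including the
projective curve itself. -/
def ProjectiveNoSection {k : Type u} [Field k] (a : k) (f : k[X]) (n : ℕ) : Prop :=
  ∀ (F : Type v) (Ω : Type w) [Field F] [Field Ω] [Algebra k F] [Algebra F Ω] [Algebra k Ω]
    [IsScalarTower k F Ω] [IsAlgClosure F Ω] (x y : F) (U : Set (ValuationSubring F)),
    y ≠ 0 → algebraMap k F a * y ^ n = aeval x f →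
    (∀ O ∈ U, ∀ c : k, algebraMap k F c ∈ O) → IsEmpty (GaloisSection k F Ω U)

/-- Let `ℓ`, `p`, `q` be primes, `(χ, ψ)` admissible, `θ_i` generators of the `ℓ + 1` cyclic fields
of the characters `χ`, `χ^j ψ`, and `P_i` their minimal polynomials.  Let `K` be a field of
characteristic zero with a place `r : V → κ`, where `κ` is a number field.  Let `a ∈ V` be such that
`r(a)` is obstructed, `G_i` finite nonempty sets of monic irreducible nonlinear polynomials over `K`
with a root in `K[x]/(P_i)`, and `f` the product of all elements of the sets `G_i`.  Let `n > 0` be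
divisible by `ℓ`.

* `f` is separable of degree `ℓ ∑ |G_i|`;
* the curve `a y^n = f(x)` has points over every extension of `K` that contains `ℝ` or some `ℚ_s`.

Let `L` be a finite extension of `K` of degree prime to `ℓ`, for instance `L = K`.

* The curve has no point over `L`, and neither has its smooth projective model, since `a` is not
  an `ℓ`-th power in `L`;
* over `L` there is no section of `π₁(U) → G_L` for the affine curve `a y^n = f(x)` and its open
  subcurves `U`, and (`U = ∅`) no section of the absolute Galois group of the function field;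
* the same holds for the smooth projective curve if `ℓ` divides all `|G_i|`.

For every prime `ℓ` there are admissible pairs with arbitrarily large `p`, `q`; there are always
generators `θ_i`; if some `r(a)` is obstructed then the polynomials `P_i(x - j)`, `j ∈ K`, can be
taken as factors; and if `ℓ` does not divide the degree of `κ`, then the natural numbers `b` that
are not obstructed over `κ` have the density `ℓ^{-(ℓ-1)}`.  Every embedding of `K` in `κ((t))` gives
a place. -/
theorem result :
    (∀ (ℓ p q : ℕ) [Fact ℓ.Prime] [Fact p.Prime] [Fact q.Prime]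
        (χ : (ZMod p)ˣ →* Multiplicative (ZMod ℓ)) (ψ : (ZMod q)ˣ →* Multiplicative (ZMod ℓ))
        (θ : Option (ZMod ℓ) → CyclotomicField (p * q) ℚ) (K : Type u) [Field K] [CharZero K]
        (V : ValuationSubring K) (κ : Type z) [Field κ] [NumberField κ] (r : V →+* κ) (a : V)
        (G : Option (ZMod ℓ) → Finset K[X]) (n : ℕ) (f : K[X]), Admissible χ ψ →
      (∀ i, IsGenerator χ ψ (coefficients i).1 (coefficients i).2 (θ i)) → IsPlace V r →
      Obstructed χ ψ (r a) →
      (∀ i, (G i).Nonempty) → (∀ i, ∀ g ∈ G i, IsFactor (minpoly ℚ (θ i)) g) → 0 < n → ℓ ∣ n →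
      f = ∏ i, ∏ g ∈ G i, g →
      f.Separable ∧ f.natDegree = ℓ * ∑ i, (G i).card ∧ LocallySoluble.{u, x} (a : K) f n ∧
      ∀ (L : Type u) [Field L] [Algebra K L] [FiniteDimensional K L],
        ¬ ℓ ∣ Module.finrank K L →
        ¬ HasPoint (a : K) f n L ∧ (∀ ρ : L, ρ ^ ℓ ≠ algebraMap K L a) ∧
        AffineNoSection.{u, v, w} (algebraMap K L a) (f.map (algebraMap K L)) n ∧
        ((∀ i, ℓ ∣ (G i).card) →
          ProjectiveNoSection.{u, v, w} (algebraMap K L a) (f.map (algebraMap K L)) n)) ∧
    (∀ (ℓ : ℕ) [Fact ℓ.Prime] (B : ℕ), ∃ (p q : ℕ) (_ : Fact p.Prime) (_ : Fact q.Prime)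
      (χ : (ZMod p)ˣ →* Multiplicative (ZMod ℓ)) (ψ : (ZMod q)ˣ →* Multiplicative (ZMod ℓ)),
      B < p ∧ B < q ∧ Admissible χ ψ) ∧
    (∀ (ℓ p q : ℕ) [Fact ℓ.Prime] [Fact p.Prime] [Fact q.Prime]
      (χ : (ZMod p)ˣ →* Multiplicative (ZMod ℓ)) (ψ : (ZMod q)ˣ →* Multiplicative (ZMod ℓ)),
      Admissible χ ψ →
      (∃ θ : Option (ZMod ℓ) → CyclotomicField (p * q) ℚ,
        ∀ i, IsGenerator χ ψ (coefficients i).1 (coefficients i).2 (θ i)) ∧
      ∀ (κ : Type z) [Field κ] [NumberField κ],
        (∀ (θ : Option (ZMod ℓ) → CyclotomicField (p * q) ℚ) (K : Type u) [Field K] [CharZero K]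
          (V : ValuationSubring K) (r : V →+* κ) (a : V),
          (∀ i, IsGenerator χ ψ (coefficients i).1 (coefficients i).2 (θ i)) → IsPlace V r →
          Obstructed χ ψ (r a) → ∀ (i : Option (ZMod ℓ)) (j : K), IsFactor (minpoly ℚ (θ i))
            (((minpoly ℚ (θ i)).map (algebraMap ℚ K)).comp (X - C j))) ∧
        (¬ ℓ ∣ Module.finrank ℚ κ →
          Filter.Tendsto (fun N : ℕ =>
            (Nat.card {b : ℕ // 1 ≤ b ∧ b ≤ N ∧ ¬ Obstructed χ ψ (b : κ)} : ℝ) / (N : ℝ))
            Filter.atTop (nhds ((ℓ : ℝ) ^ (ℓ - 1))⁻¹))) ∧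
    ∀ (K : Type u) [Field K] (κ : Type z) [Field κ] (ι : K →+* LaurentSeries κ),
      ∃ (V : ValuationSubring K) (r : V →+* κ), IsPlace V r ∧
        (∀ x : K, x ∈ V ↔ ∃ F : PowerSeries κ, (F : LaurentSeries κ) = ι x) ∧
        ∀ x : V, r x = HahnSeries.coeff (ι (x : K)) 0 := by
  have hgood : ∀ (ℓ p q : ℕ) [Fact ℓ.Prime] [Fact p.Prime] [Fact q.Prime]
      (χ : (ZMod p)ˣ →* Multiplicative (ZMod ℓ)) (ψ : (ZMod q)ˣ →* Multiplicative (ZMod ℓ)),
      Admissible χ ψ → Pool.Agent.K3h48.MN.Good χ ψ := by
    intro ℓ p q _ _ _ χ ψ h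
    exact ⟨h.ne, h.surjective_left, h.surjective_right,
      Pool.Agent.K3h48.MN.ind_pow_zero χ h.q_power, Pool.Agent.K3h48.MN.ind_pow_zero ψ h.p_power,
      Pool.Agent.K3h48.MN.ind_pow_zero χ h.neg_power_left,
      Pool.Agent.K3h48.MN.ind_pow_zero ψ h.neg_power_right⟩
  refine ⟨?_, ?_, ?_, ?_⟩
  · intro ℓ p q _ _ _ χ ψ θ K _ _ V κ _ _ r a G n f hadm hθ hr ha hne hGf hn hℓn hf
    subst hf
    have hG := hgood ℓ p q χ ψ hadm
    have hθ' : ∀ i, Pool.Agent.K3h48.MN.GenBy χ ψ (Pool.Agent.K3h48.MN.cs i).1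
        (Pool.Agent.K3h48.MN.cs i).2 (θ i) := by
      intro i
      cases i with
      | none => exact hθ none
      | some j => exact hθ (some j)
    have hGf' : ∀ i, ∀ g ∈ G i, Pool.Agent.K3h48.MN.IsFactor (minpoly ℚ (θ i)) g := fun i g hg =>
      ⟨(hGf i g hg).monic, (hGf i g hg).irreducible, (hGf i g hg).not_linear,
        (hGf i g hg).root⟩
    have ha' : Pool.Agent.K3h48.MN.Obs χ ψ (r a) := ha
    have hr' : Pool.Agent.K3h48.FG.IsPlace V r := hr
    obtain ⟨hsep, hdeg⟩ := Pool.Agent.K3h48.FG.final_separable hG hθ' hr' ha' G hGf'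
    refine ⟨hsep, hdeg, ?_, ?_⟩
    · intro L _ _ hL
      obtain ⟨x, hx⟩ := Pool.Agent.K3h48.MN.final_local hG hθ' G hGf' hne hL
      refine ⟨x, 0, ?_⟩
      rw [hx, zero_pow hn.ne', mul_zero]
    · intro L _ _ _ hL
      have hc : CharZero L := charZero_of_injective_algebraMap (algebraMap K L).injective
      refine ⟨?_, ?_, ?_, ?_⟩
      · rintro ⟨x, y, h⟩
        refine Pool.Agent.K3h48.FG.ext_no_points hG hθ' hr' ha' hL G hGf' hℓn x y ?_
        rw [h, eval_map_algebraMap]
      · exact Pool.Agent.K3h48.FG.final_no_infinity hG hθ' hr' ha' hL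
      · intro F Ω _ _ _ _ _ _ _ x y U hy hxy hU
        have h1 : IsAlgClosed Ω := IsAlgClosure.isAlgClosed F
        have h2 : Algebra.IsAlgebraic F Ω := IsAlgClosure.isAlgebraic
        have h3 := Pool.Agent.K3h48.FG.ext_no_section (F := F) (Ω := Ω) hG hθ' hr' ha' hL G hGf'
          hℓn x y hy hxy U (fun O hO => (hU O hO).2) (Or.inr fun O hO => (hU O hO).1)
        exact ⟨fun s => h3.false ⟨s.toHom, s.cont, s.compat⟩⟩
      · intro hcard F Ω _ _ _ _ _ _ _ x y U hy hxy hU
        have h1 : IsAlgClosed Ω := IsAlgClosure.isAlgClosed F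
        have h2 : Algebra.IsAlgebraic F Ω := IsAlgClosure.isAlgebraic
        have h3 := Pool.Agent.K3h48.FG.ext_no_section (F := F) (Ω := Ω) hG hθ' hr' ha' hL G hGf'
          hℓn x y hy hxy U hU (Or.inl hcard)
        exact ⟨fun s => h3.false ⟨s.toHom, s.cont, s.compat⟩⟩
  · intro ℓ _ B
    have hℓ : ℓ.Prime := Fact.out
    obtain ⟨p, hp, hBp, hp1⟩ := Nat.exists_prime_gt_modEq_one (k := 2 * ℓ) B
      (mul_ne_zero two_ne_zero hℓ.ne_zero)
    obtain ⟨q, hq, hqB, hq1, hqp, hpow⟩ := Pool.Agent.K3h48.MN.exists_q hℓ.pos hp (max B p)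
    have : Fact p.Prime := ⟨hp⟩
    have : Fact q.Prime := ⟨hq⟩
    have hd : ∀ r : ℕ, r.Prime → r ≡ 1 [MOD 2 * ℓ] → 2 * ℓ ∣ r - 1 := fun r hr h =>
      (Nat.modEq_iff_dvd' hr.one_lt.le).1 h.symm
    obtain ⟨χ, hχ⟩ := Pool.Agent.K3h48.MN.exists_char (ℓ := ℓ) (p := p)
      ((Dvd.intro_left 2 rfl).trans (hd p hp hp1))
    obtain ⟨ψ, hψ⟩ := Pool.Agent.K3h48.MN.exists_char (ℓ := ℓ) (p := q)
      ((Dvd.intro_left 2 rfl).trans (hd q hq hq1))
    have hBq : B < q := lt_of_le_of_lt (le_max_left _ _) hqB
    have hpq : p < q := lt_of_le_of_lt (le_max_right _ _) hqB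
    refine ⟨p, q, ⟨hp⟩, ⟨hq⟩, χ, ψ, hBp, hBq, hpq.ne, hχ, hψ, ⟨1, ?_⟩, hpow,
      Pool.Agent.K3h48.MN.neg_one_pow hℓ.pos (hd p hp hp1),
      Pool.Agent.K3h48.MN.neg_one_pow hℓ.pos (hd q hq hq1)⟩
    rw [one_pow, (ZMod.natCast_eq_natCast_iff _ _ _).2 hqp, Nat.cast_one]
  · intro ℓ p q _ _ _ χ ψ hadm
    have hG := hgood ℓ p q χ ψ hadm
    refine ⟨?_, ?_⟩
    · have h1 := fun i : Option (ZMod ℓ) => Pool.Agent.K3h48.MN.exists_gen χ ψ
        (coefficients i).1 (coefficients i).2
      choose θ hθ using h1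
      exact ⟨θ, hθ⟩
    · intro κ _ _
      refine ⟨?_, fun h => Pool.Agent.K3h48.MN.obs_density hG h⟩
      intro θ K _ _ V r a hθ hr ha i j
      have hθ' : ∀ i, Pool.Agent.K3h48.MN.GenBy χ ψ (Pool.Agent.K3h48.MN.cs i).1
          (Pool.Agent.K3h48.MN.cs i).2 (θ i) := by
        intro i
        cases i with
        | none => exact hθ none
        | some j => exact hθ (some j)
      have ha' : Pool.Agent.K3h48.MN.Obs χ ψ (r a) := ha
      have hr' : Pool.Agent.K3h48.FG.IsPlace V r := hr
      have h1 := Pool.Agent.K3h48.FG.translate hG hθ' hr' ha' i j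
      exact ⟨h1.monic, h1.irreducible, h1.not_linear, h1.root⟩
  · intro K _ κ _ ι
    exact ⟨Pool.Agent.K3h48.FG.psV ι, Pool.Agent.K3h48.FG.psR ι,
      Pool.Agent.K3h48.FG.psR_place ι, Pool.Agent.K3h48.FG.mem_psV ι,
      Pool.Agent.K3h48.FG.psR_apply ι⟩

end Pool.Agent.Results.MP_8312c9_nt.SuperellipticThroughPlaces
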